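import Pool.Agent.NXL.Core
import Pool.Agent.XL.RankF

set_option autoImplicit false

/-!
# Comparator circuits and the lifted system, for weaker expansion
-/

namespace Pool.Agent.NXL

open Finset Pool.Agent.XL

variable {F : Type} [Field F] {M m h d : ℕ} {e : Fin M → Fin 8 → Fin m}

/-- Decompositions. -/
theorem rkF_decompH (hE : ExpandH d e) (b : Fin M → ZMod 2)
    (R : Finset (Fin m → Fin h → ZMod 2)) (hM : 0 < M) {S : ℕ}
    {G : (Bvar M h → Bool) → Bool} (hG : Decomp F S G) :
    rkF F d e b R G ≤ (S * ((TT d M).card * 2 ^ (h * (m - d))) : ℕ) := by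
  classical
  obtain ⟨label, u, v, hu, hv, h1⟩ := hG
  set lab : Fin S → Fin M := fun i => match label i with
      | some β => β.1
      | none => ⟨0, hM⟩ with hlab
  set c : (Fin m → Fin h → ZMod 2) → Fin S → F :=
    fun W i => if G (PW e W) = true then u i (PW e W) else 0 with hc
  have h2 := card_gensH (F := F) hE R lab c
  have h3 : rkF F d e b R G ≤ ((gens d e R lab c).card : ℤ) := by
    unfold rkF
    refine rk_le_of _ _ _ _ fun x hx => ?_
    have h4 := column_mem' (d := d) b R lab c (fun i => v i (negIn e b x)) x (by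
      intro W hW i hne
      have hc' : c W i ≠ 0 := left_ne_zero_of_mul hne
      have hv' : v i (negIn e b x) ≠ 0 := right_ne_zero_of_mul hne
      simp only [hc] at hc'
      by_cases hG1 : G (PW e W) = true
      · rw [if_pos hG1] at hc'
        obtain ⟨β, hβ, hn⟩ := hv i _ hx hv'
        have hp := hu i _ hG1 hc' β hβ
        have hl : label i = some β := hβ
        simp only [hlab, hl]
        exact viol_of hp hn
      · rw [if_neg hG1] at hc'
        exact absurd rfl hc')
    refine Eq.subst (motive := fun w => w ∈ Submodule.span F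
      ((gens d e R lab c : Finset (↥R → F)) : Set (↥R → F))) ?_ h4
    funext W
    by_cases hG1 : G (PW e W.1) = true
    · rw [if_pos hG1]
      have h5 : ∑ i, c W.1 i * v i (negIn e b x) = 1 := by
        simp only [hc, if_pos hG1]
        exact h1 _ _ hG1 hx
      rw [h5, one_mul]
    · rw [if_neg hG1]
      have h5 : ∑ i, c W.1 i * v i (negIn e b x) = 0 := by
        simp only [hc, if_neg hG1, zero_mul, Finset.sum_const_zero]
      rw [h5, zero_mul]
  have h6 : ((gens d e R lab c).card : ℤ) ≤
      (S * ((TT d M).card * 2 ^ (h * (m - d))) : ℕ) := by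
    exact_mod_cast h2
  exact h3.trans h6

/-- Comparator circuits. -/
theorem rkF_compH (hE : ExpandH d e) (b : Fin M → ZMod 2)
    (R : Finset (Fin m → Fin h → ZMod 2)) (hM : 0 < M) {S : ℕ} (P : CompCirc (Bvar M h) S) :
    rkF F d e b R P.val ≤ (S * ((TT d M).card * 2 ^ (h * (m - d))) : ℕ) := by
  classical
  unfold rkF CompCirc.val
  have h1 := rk_comp (fun (x : Fin m → Fin h → ZMod 2) (W : ↥R) => mat F d e b W.1 x)
    P.gates P.out (fun i (W : ↥R) => Sum.elim (PW e W.1) id (P.init i))
    (fun i x => Sum.elim (negIn e b x) id (P.init i))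
    (((TT d M).card * 2 ^ (h * (m - d)) : ℕ) : ℤ) (by
      intro i
      cases hi : P.init i with
      | inl v =>
        have h2 := rkF_decompH (F := F) hE b R hM (decomp_var F v)
        rw [one_mul] at h2
        exact h2
      | inr c =>
        have h2 := rk_const (fun (x : Fin m → Fin h → ZMod 2) (W : ↥R) => mat F d e b W.1 x) c
        have h3 : (0 : ℤ) ≤ (((TT d M).card * 2 ^ (h * (m - d)) : ℕ) : ℤ) := by positivity
        exact (le_of_eq h2).trans h3)
  refine h1.trans (le_of_eq ?_)
  push_cast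
  ring

/-- The rank of a function which is true on all positive inputs of `R` and false on all negative
inputs. -/
theorem card_le_rkF (h2 : (2 : F) ≠ 0) (hE : ExpandH d e) (b : Fin M → ZMod 2)
    (R : Finset (Fin m → Fin h → ZMod 2)) (hR : ∀ W ∈ R, ∀ j, W j ≠ 0)
    {G : (Bvar M h → Bool) → Bool} (hp : ∀ W ∈ R, G (PW e W) = true)
    (hn : ∀ x, G (negIn e b x) = false) : (R.card : ℤ) ≤ rkF F d e b R G := by
  classical
  have hne : (2 : F) ^ (h * m) ≠ 0 := pow_ne_zero _ h2
  have htop : rkSp (fun (x : Fin m → Fin h → ZMod 2) (W : ↥R) => mat F d e b W.1 x)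
    (fun W : ↥R => G (PW e W.1)) (fun x => G (negIn e b x)) = ⊤ := by
    set P := rkSp (fun (x : Fin m → Fin h → ZMod 2) (W : ↥R) => mat F d e b W.1 x)
      (fun W : ↥R => G (PW e W.1)) (fun x => G (negIn e b x)) with hP
    have hcol : ∀ x, (fun W : ↥R => mat F d e b W.1 x) ∈ P := fun x =>
      Submodule.subset_span (Or.inl ⟨x, hn x, rfl⟩)
    have hsingle : ∀ V : ↥R, (Pi.single V (1 : F) : ↥R → F) ∈ P := by
      intro V
      have e1 : ((2 : F) ^ (h * m)) • (Pi.single V (1 : F) : ↥R → F) =
          ∑ x : Fin m → Fin h → ZMod 2, chi F (∑ j, ip V.1 x j) •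
            (fun W : ↥R => mat F d e b W.1 x) := by
        funext W
        rw [Finset.sum_apply]
        simp only [Pi.smul_apply, smul_eq_mul]
        have e2 := mat_mulH F hE b W.1 V.1 (hR V.1 V.2)
        simp only [mul_comm (chi F _)]
        rw [e2]
        by_cases hWV : W = V
        · subst hWV; simp
        · have hWV' : W.1 ≠ V.1 := fun hh => hWV (Subtype.ext hh)
          rw [Pi.single_eq_of_ne hWV, if_neg hWV', mul_zero]
      have e3 : ((2 : F) ^ (h * m)) • (Pi.single V (1 : F) : ↥R → F) ∈ P := by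
        rw [e1]
        exact Submodule.sum_mem _ fun x _ => Submodule.smul_mem _ _ (hcol x)
      exact (Submodule.smul_mem_iff _ hne).1 e3
    rw [eq_top_iff, ← (Pi.basisFun F ↥R).span_eq, Submodule.span_le]
    rintro v ⟨V, rfl⟩
    have := hsingle V
    simpa using this
  unfold rkF rk
  rw [htop, finrank_top, Module.finrank_fintype_fun_eq_card, Fintype.card_coe]
  have h3 : (univ.filter fun W : ↥R => G (PW e W.1) = false) = ∅ := by
    apply Finset.filter_eq_empty_iff.2
    intro W _
    rw [hp W.1 W.2]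
    simp
  rw [h3]
  simp

/-- A comparator circuit below `incon` accepts few positive inputs. -/
theorem few_of_compH (F : Type) [Field F] (h2 : (2 : F) ≠ 0) (hE : ExpandH d e)
    (b : Fin M → ZMod 2) (hM : 0 < M) {S : ℕ} (P : CompCirc (Bvar M h) S)
    (hle : ∀ u, P.val u = true → incon e b u = true) :
    (univ.filter fun W : Fin m → Fin h → ZMod 2 =>
      (∀ j, W j ≠ 0) ∧ P.val (PW e W) = true).card ≤
      S * ((TT d M).card * 2 ^ (h * (m - d))) := by
  classical
  set R := univ.filter fun W : Fin m → Fin h → ZMod 2 =>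
    (∀ j, W j ≠ 0) ∧ P.val (PW e W) = true with hR
  have hneg : ∀ x, P.val (negIn e b x) = false := by
    intro x
    by_contra hcon
    have h3 := hle _ (by simpa using hcon)
    rw [incon_negIn] at h3
    exact absurd h3 (by simp)
  have h3 := card_le_rkF (F := F) h2 hE b R (G := P.val)
    (fun W hW => (Finset.mem_filter.1 hW).2.1) (fun W hW => (Finset.mem_filter.1 hW).2.2) hneg
  have h4 := rkF_compH (F := F) hE b R hM P
  exact_mod_cast h3.trans h4

/-- Strongly exponential form: `n` equations with `4 n` unknowns. -/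
theorem few_num_compH {n : ℕ} {e : Fin n → Fin 8 → Fin (4 * n)} (hE : ExpandH d e)
    (b : Fin n → ZMod 2) (hd : 1 ≤ d) (hd1 : d ≤ n) (hd2 : n ≤ 8 * d) {S : ℕ}
    (P : CompCirc (Bvar n 24) S) (hle : ∀ u, P.val u = true → incon e b u = true) :
    2 ^ n * (univ.filter fun W : Fin (4 * n) → Fin 24 → ZMod 2 =>
      (∀ j, W j ≠ 0) ∧ P.val (PW e W) = true).card ≤ S * (2 ^ 24 - 1) ^ (4 * n) := by
  have h3 := few_of_compH ℚ (by norm_num) hE b (by omega) P hle
  have h4 := card_TT_le d n
  calc 2 ^ n * (univ.filter fun W : Fin (4 * n) → Fin 24 → ZMod 2 =>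
      (∀ j, W j ≠ 0) ∧ P.val (PW e W) = true).card
      ≤ 2 ^ n * (S * (2 ^ n * 2 ^ (24 * (4 * n - d)))) := by
        apply Nat.mul_le_mul_left
        exact h3.trans (Nat.mul_le_mul_left _ (Nat.mul_le_mul_right _ h4))
    _ = S * (2 ^ n * (2 ^ n * 2 ^ (24 * (4 * n - d)))) := by ring
    _ ≤ S * (2 ^ 24 - 1) ^ (4 * n) := Nat.mul_le_mul_left _ (num_auxH d n hd1 hd2)

end Pool.Agent.NXL
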