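import Pool.Agent.NXL.LangS
import Pool.Agent.NXL.CompH
import Pool.Agent.XL.NotLinDev

set_option autoImplicit false

/-!
# The language with shared scales: few changes of the answers to monotone queries, average case
-/

namespace Pool.Agent.NXL

open Finset Pool.Agent.XL Pool.Agent.NTR Pool.Agent.NTN Pool.Agent.TeleNeg
open scoped BigOperators

/-- The bound of one row, weaker expansion. -/
def rowKH (M m h d : ℕ) : ℕ := (TT d M).card * 2 ^ (h * (m - d))

theorem rowKH_pos (M m h d : ℕ) : 0 < rowKH M m h d := by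
  unfold rowKH
  refine Nat.mul_pos (Finset.card_pos.2 ⟨∅, ?_⟩) (by positivity)
  simp [TT]

theorem devClass_rkH (F : Type) [Field F] {M m h d k : ℕ} {e : Fin M → Fin 8 → Fin m}
    (b : Fin M → ZMod 2) (R : Finset (Fin m → Fin h → ZMod 2)) (hE : ExpandH d e) (hM : 0 < M)
    {G : (Bvar M h → Bool) → Bool} (hG : (devClass k).mem (Bvar M h) G) :
    rkF F d e b R G ≤ (2 ^ (2 * k) * (Fintype.card (Bvar M h) + 1) * rowKH M m h d : ℕ) := by
  have key : ∀ G : (Bvar M h → Bool) → Bool, (twoClass k).mem (Bvar M h) G →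
      rkF F d e b R G ≤ (2 ^ (2 * k) * (Fintype.card (Bvar M h) + 1) * rowKH M m h d : ℕ) :=
    fun G hG => rkF_decompH (F := F) (d := d) hE b R hM (twoClass_decomp F hG)
  rcases hG with h | ⟨S, hS, P, hP⟩ | h
  · exact key G (Or.inl h)
  · have h1 := rkF_compH (F := F) (d := d) hE b R hM P
    rw [show P.val = G from funext hP] at h1
    refine h1.trans ?_
    have h2 : S * rowKH M m h d ≤ 2 ^ (2 * k) * (Fintype.card (Bvar M h) + 1) * rowKH M m h d := by
      apply Nat.mul_le_mul_right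
      calc S ≤ 2 ^ k := hS
        _ ≤ 2 ^ (2 * k) := Nat.pow_le_pow_right (by norm_num) (by omega)
        _ ≤ 2 ^ (2 * k) * (Fintype.card (Bvar M h) + 1) := Nat.le_mul_of_pos_right _ (by omega)
    exact_mod_cast h2
  · exact key G (Or.inr h)

theorem orSet_dev_rkH (F : Type) [Field F] {M m h d k q : ℕ} {e : Fin M → Fin 8 → Fin m}
    (b : Fin M → ZMod 2) (R : Finset (Fin m → Fin h → ZMod 2)) (hE : ExpandH d e) (hM : 0 < M)
    (hq : q ≤ 2 ^ k) {H : (Bvar M h → Bool) → Bool} (hH : H ∈ orSet (devClass k) (Bvar M h) q) :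
    rkF F d e b R H ≤ (2 ^ (3 * k) * (Fintype.card (Bvar M h) + 1) * rowKH M m h d : ℕ) := by
  have h1 := rkF_orSet (F := F) (d := d) (e := e) b R (C := devClass k)
    (T := (2 ^ (2 * k) * (Fintype.card (Bvar M h) + 1) * rowKH M m h d : ℕ)) (by positivity)
    (fun G hG => devClass_rkH F b R hE hM hG) hH
  refine h1.trans ?_
  have h2 : q * (2 ^ (2 * k) * (Fintype.card (Bvar M h) + 1) * rowKH M m h d) ≤
      2 ^ (3 * k) * (Fintype.card (Bvar M h) + 1) * rowKH M m h d := by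
    calc q * (2 ^ (2 * k) * (Fintype.card (Bvar M h) + 1) * rowKH M m h d)
        ≤ 2 ^ k * (2 ^ (2 * k) * (Fintype.card (Bvar M h) + 1) * rowKH M m h d) :=
          Nat.mul_le_mul_right _ hq
      _ = 2 ^ (3 * k) * (Fintype.card (Bvar M h) + 1) * rowKH M m h d := by
          have : 2 ^ (3 * k) = 2 ^ k * 2 ^ (2 * k) := by rw [← pow_add]; congr 1; ring
          rw [this]; ring
  exact_mod_cast h2

/-- The measure of a function which separates the positive from the negative inputs is large. -/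
theorem rk_largeH {d n : ℕ} {e : Fin n → Fin 8 → Fin (4 * n)} (hE : ExpandH d e)
    (b : Fin n → ZMod 2) (hd1 : d ≤ n) (hd2 : n ≤ 8 * d) {g : (Bvar n 24 → Bool) → Bool}
    (hp : ∀ W, g (PW e W) = true) (hn : ∀ x, g (negIn e b x) = false) {Q : ℕ}
    (hQ : rkF ℚ d e b (univ.filter fun W : Fin (4 * n) → Fin 24 → ZMod 2 => ∀ j, W j ≠ 0) g
      ≤ (Q * rowKH n (4 * n) 24 d : ℕ)) : 2 ^ n ≤ Q := by
  classical
  have h1 := card_le_rkF (F := ℚ) (by norm_num) hE b
    (univ.filter fun W : Fin (4 * n) → Fin 24 → ZMod 2 => ∀ j, W j ≠ 0)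
    (fun W hW => (Finset.mem_filter.1 hW).2) (G := g) (fun W _ => hp W) hn
  have h2 : (univ.filter fun W : Fin (4 * n) → Fin 24 → ZMod 2 => ∀ j, W j ≠ 0).card ≤
      Q * rowKH n (4 * n) 24 d := by exact_mod_cast h1.trans hQ
  rw [card_pos_inputs] at h2
  have h3 := num_auxH d n hd1 hd2
  have h4 := card_TT_le d n
  have h5 : 2 ^ n * rowKH n (4 * n) 24 d ≤ Q * rowKH n (4 * n) 24 d := by
    refine le_trans ?_ h2
    refine le_trans ?_ h3
    exact Nat.mul_le_mul_left _ (Nat.mul_le_mul_right _ h4)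
  exact Nat.le_of_mul_le_mul_right h5 (rowKH_pos _ _ _ _)

theorem log_small {L : ℕ} (hL : 11 ≤ L) : 64 * L ≤ 2 ^ (L - 1) := by
  induction L, hL using Nat.le_induction with
  | base => norm_num
  | succ L hL ih =>
    have h : L + 1 - 1 = (L - 1) + 1 := by omega
    rw [h, pow_succ]
    omega

/-- The numbers. -/
theorem num_thrH {k i j n : ℕ} (hk : 1 ≤ k) (h : 2 ^ 16 * k ≤ n)
    (hi : 2 * 2 ^ i ≤ 2 * (3 * (n * 2 ^ 192) * 4 ^ k) + 1) (hj : 2 ^ j ≤ 6 * (n * 2 ^ 192)) :
    5 ^ (2 * i + j + 2) * (2 ^ (3 * k) * (n * 2 ^ 192 + 1)) < 2 ^ n := by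
  obtain ⟨L, hL⟩ : ∃ L, L = Nat.log 2 n + 1 := ⟨_, rfl⟩
  have hn0 : n ≠ 0 := by omega
  have h1 : n < 2 ^ L := by
    rw [hL]
    exact Nat.lt_pow_succ_log_self (by norm_num) n
  have h2 : 2 ^ (L - 1) ≤ n := by
    rw [hL, Nat.add_sub_cancel]
    exact Nat.pow_log_le_self 2 hn0
  have h3 : 17 ≤ L := by
    by_contra hcon
    have h4 : 2 ^ L ≤ 2 ^ 16 := Nat.pow_le_pow_right (by norm_num) (by omega)
    omega
  have h4 : 64 * L ≤ n := (log_small (by omega)).trans h2
  have e1 : n * 2 ^ 192 + 1 ≤ 2 ^ (193 + L) := by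
    have e2 : (2 : ℕ) ^ (193 + L) = 2 ^ 192 * (2 * 2 ^ L) := by
      rw [show 193 + L = 192 + (1 + L) by ring, pow_add, pow_add]
      norm_num
    rw [e2]
    have e3 : 1 ≤ 2 ^ 192 * n := Nat.mul_pos (by positivity) (by omega)
    calc n * 2 ^ 192 + 1 ≤ 2 ^ 192 * n + 2 ^ 192 * n := by rw [mul_comm n]; omega
      _ = 2 ^ 192 * (2 * n) := by ring
      _ ≤ 2 ^ 192 * (2 * 2 ^ L) := Nat.mul_le_mul_left _ (Nat.mul_le_mul_left _ h1.le)
  have e4 : i ≤ 194 + L + 2 * k := by
    have e5 : 2 ^ i ≤ 2 ^ (194 + L + 2 * k) := by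
      have e6 : (2 : ℕ) ^ (194 + L + 2 * k) = 2 ^ 192 * (4 * (2 ^ L * 4 ^ k)) := by
        rw [pow_add, pow_add, pow_mul, show (194 : ℕ) = 192 + 2 by norm_num, pow_add]
        norm_num
        ring
      have e7 : n * 4 ^ k ≤ 2 ^ L * 4 ^ k := Nat.mul_le_mul_right _ h1.le
      have e8 : 3 * (n * 2 ^ 192) * 4 ^ k = 2 ^ 192 * (3 * (n * 4 ^ k)) := by ring
      have e9 : 2 ^ 192 * (3 * (n * 4 ^ k)) ≤ 2 ^ 192 * (3 * (2 ^ L * 4 ^ k)) :=
        Nat.mul_le_mul_left _ (Nat.mul_le_mul_left _ e7)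
      have e10 : 2 ^ 192 * (4 * (2 ^ L * 4 ^ k)) =
          2 ^ 192 * (3 * (2 ^ L * 4 ^ k)) + 2 ^ 192 * (2 ^ L * 4 ^ k) := by ring
      have e11 : 1 ≤ 2 ^ 192 * (2 ^ L * 4 ^ k) := Nat.one_le_iff_ne_zero.2 (by positivity)
      rw [e8] at hi
      rw [e6, e10]
      omega
    exact (Nat.pow_le_pow_iff_right (by norm_num)).1 e5
  have e5 : j ≤ 195 + L := by
    have e6 : 2 ^ j ≤ 2 ^ (195 + L) := by
      have e7 : (2 : ℕ) ^ (195 + L) = 8 * (2 ^ L * 2 ^ 192) := by
        rw [show 195 + L = 3 + (L + 192) by ring, pow_add, pow_add]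
        norm_num
      have e8 : n * 2 ^ 192 ≤ 2 ^ L * 2 ^ 192 := Nat.mul_le_mul_right _ h1.le
      rw [e7]
      omega
    exact (Nat.pow_le_pow_iff_right (by norm_num)).1 e6
  have e6 : 5 ^ (2 * i + j + 2) ≤ 2 ^ (3 * (585 + 3 * L + 4 * k)) := by
    calc 5 ^ (2 * i + j + 2) ≤ 8 ^ (2 * i + j + 2) := Nat.pow_le_pow_left (by norm_num) _
      _ ≤ 8 ^ (585 + 3 * L + 4 * k) := Nat.pow_le_pow_right (by norm_num) (by omega)
      _ = 2 ^ (3 * (585 + 3 * L + 4 * k)) := by
        rw [show (8 : ℕ) = 2 ^ 3 by norm_num, ← pow_mul]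
  calc 5 ^ (2 * i + j + 2) * (2 ^ (3 * k) * (n * 2 ^ 192 + 1))
      ≤ 2 ^ (3 * (585 + 3 * L + 4 * k)) * (2 ^ (3 * k) * 2 ^ (193 + L)) :=
        Nat.mul_le_mul e6 (Nat.mul_le_mul_left _ e1)
    _ = 2 ^ (3 * (585 + 3 * L + 4 * k) + (3 * k + (193 + L))) := by rw [← pow_add, ← pow_add]
    _ < 2 ^ n := Nat.pow_lt_pow_right (by norm_num) (by omega)

open Classical in
/-- The block function. -/
noncomputable def blockF (N : ℕ) (u : Bvar (N * N) 24 → Bool) : Bool :=
  decide (∃ w, Cert N (word N u) w)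

theorem blockF_iff (N : ℕ) (u : Bvar (N * N) 24 → Bool) :
    blockF N u = true ↔ ∃ w, Cert N (word N u) w := by
  classical
  unfold blockF
  exact decide_eq_true_iff

theorem blockF_mono (N : ℕ) : Monotone (blockF N) := by
  intro u v huv
  rw [Bool.le_iff_imp]
  intro hu
  rw [blockF_iff] at hu ⊢
  obtain ⟨w, hw⟩ := hu
  refine ⟨w, cert_mono (fun a ha h => ?_) hw⟩
  have e : a = KK * (a / KK) + a % KK := (Nat.div_add_mod a KK).symm
  have hi : a / KK < N * N := Nat.div_lt_of_lt_mul (by rwa [mul_comm] at ha)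
  have hl : a % KK < KK := Nat.mod_lt _ KK_pos
  rw [e, word_of_lt _ hi hl] at h ⊢
  exact Bool.le_iff_imp.mp (huv _) h

theorem blockF_PW {N : ℕ} (hN : Odd N) (W : Fin (4 * (N * N)) → Fin 24 → ZMod 2) :
    blockF N (PW (eF N) W) = true := (blockF_iff _ _).2 ⟨_, cert_PW W hN⟩

theorem blockF_neg (N : ℕ) (x : Fin (4 * (N * N)) → Fin 24 → ZMod 2) :
    blockF N (negIn (eF N) (fun _ => 1) x) = false := by
  by_contra hcon
  have h1 : blockF N (negIn (eF N) (fun _ => 1) x) = true := by simpa using hcon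
  rw [blockF_iff] at h1
  obtain ⟨w, hw⟩ := h1
  have h2 := cert_sound hw
  rw [incon_negIn] at h2
  exact absurd h2 (by simp)

/-- The constant. -/
def CS (d : ℕ) : ℕ := 8 * d * (9 * KK * 2 ^ 16)

open Classical in
/-- **The language, average case.** -/
theorem slang_average {d n k : ℕ} (hd : 1 ≤ d) (hk : 1 ≤ k) (hn : 1 ≤ n) :
    ∃ μ : (Fin n → Bool) → ℝ, (∀ x, 0 ≤ μ x) ∧ ∑ x, μ x = 1 ∧
      ∀ (ts : List ℕ) (T b : ℕ) (A : (Fin n → Bool) → Bool),
        ts.sum + T ≤ 2 ^ k → Tries (devClass k) univ ts T b A →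
        ∑ x with (A x = true ↔ slang d (List.ofFn x) = true), μ x
          ≤ 1 / 2 + (1 / 2) ^ k + (T + 1) * b * (CS d * k) / n := by
  have hn' : (0 : ℝ) < n := by exact_mod_cast hn
  have hKK := KK_pos
  obtain ⟨c, hc⟩ : ∃ c, c = CS d * k := ⟨_, rfl⟩
  have hc0 : 0 < c := by
    rw [hc]
    unfold CS
    positivity
  have hcR : ((CS d : ℝ) * k) = (c : ℝ) := by rw [hc]; push_cast; ring
  rw [hcR]
  have hc' : (0 : ℝ) < c := by exact_mod_cast hc0
  rcases Nat.lt_or_ge n c with hlt | hge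
  · -- the trivial case
    have h2 : (1 : ℝ) ≤ c / n := by
      rw [one_le_div hn']
      exact_mod_cast hlt.le
    have h5 : (0 : ℝ) ≤ (1 / 2) ^ k := by positivity
    refine ⟨fun x => if x = (fun _ => false) then 1 else 0, fun x => ?_, ?_, ?_⟩
    · dsimp only
      split_ifs <;> norm_num
    · rw [Finset.sum_ite_eq' Finset.univ]
      simp
    · intro ts T b A _ hA
      obtain ⟨Q, P, h, -, -, -, hch, -⟩ := hA
      have hb : 0 < b := changesOn_pos' hch
      refine (Finset.sum_le_sum_of_subset_of_nonneg (Finset.filter_subset _ _) (by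
          intro x _ _
          split_ifs <;> norm_num)).trans ?_
      rw [Finset.sum_ite_eq' Finset.univ]
      simp only [Finset.mem_univ, if_true]
      have h3 : (1 : ℝ) ≤ (T + 1) * b := by
        have e1 : (1 : ℝ) ≤ b := by exact_mod_cast hb
        have e2 : (0 : ℝ) ≤ T := by positivity
        nlinarith
      have h4 : (1 : ℝ) ≤ (T + 1) * b * c / n := by
        rw [mul_div_assoc]
        exact one_le_mul_of_one_le_of_one_le h3 h2
      linarith
  · -- the scale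
    obtain ⟨a, ha⟩ : ∃ a, a = 9 * KK * (2 ^ 16 * k) := ⟨_, rfl⟩
    obtain ⟨h1, h2⟩ := NN_large (n := a) (k := 2 ^ 16 * k) (by omega) ha.ge
    set N := NN a with hN
    have hB : N * N * KK ≤ a := NN_le a
    have hB0 : 0 < N * N * KK := Nat.mul_pos (by omega) hKK
    have hNodd : N % 2 = 1 := Nat.odd_iff.1 h2
    have hca : c = 8 * d * a := by
      rw [hc, ha]
      unfold CS
      ring
    -- the number of blocks
    obtain ⟨r, hrd⟩ : ∃ r, r = n / c := ⟨_, rfl⟩
    have hr : 1 ≤ r := by rw [hrd]; exact (Nat.one_le_div_iff hc0).2 hge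
    have hroom : r * (N * N * KK) ≤ n / d / 2 := by
      rw [Nat.div_div_eq_div_mul, Nat.le_div_iff_mul_le (by omega)]
      calc r * (N * N * KK) * (d * 2) ≤ r * a * (d * 2) := by gcongr
        _ ≤ r * (8 * d * a) := by
          have : r * (8 * d * a) = r * a * (d * 8) := by ring
          rw [this]
          gcongr
          norm_num
        _ = n / c * c := by rw [hrd, hca]
        _ ≤ n := Nat.div_mul_le_self _ _
    obtain ⟨φ, -, f3⟩ := slang_restrict d n N r hNodd hroom hr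
    have hcdz : Fintype.card (Bvar (N * N) 24) = N * N * 2 ^ 192 := card_vars (N * N)
    obtain ⟨cd, hcd⟩ : ∃ cd, cd = Fintype.card (Bvar (N * N) 24) := ⟨_, rfl⟩
    have hcd1 : 1 ≤ cd := by
      rw [hcd, hcdz]
      exact Nat.mul_pos (by omega) (by positivity)
    have h5 : (0 : ℝ) < (1 / 2) ^ k := by positivity
    have h6 : ((1 / 2 : ℝ)) ^ k < 1 := pow_lt_one₀ (by norm_num) (by norm_num) (by omega)
    have hk1 : 1 ≤ 3 * cd * 4 ^ k := by
      have : 1 ≤ 4 ^ k := Nat.one_le_pow _ _ (by norm_num)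
      nlinarith
    obtain ⟨i, j, e1, e2, e3, e4⟩ := exists_levels hk1 hcd1
    have hX := expandH N h2
    have hE : ExpandH (N * N / 7) (eF N) := fun A hA => hX A (by omega)
    obtain ⟨μ, m1, m2, m3, m4⟩ := average_queries_or (U := univ) hr
      (blockF N) (blockF_mono N) (fun x : Fin n → Bool => slang d (List.ofFn x) = true) φ
      (fun v hv => absurd (Finset.mem_univ v) hv)
      (fun y => by
        rw [f3]
        exact exists_congr fun i => (blockF_iff _ _).symm) h5 h6 (3 * cd * 4 ^ k) (by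
        have h7 : ((1 / 2 : ℝ) ^ k) ^ 2 = 1 / 4 ^ k := by
          rw [← pow_mul, mul_comm, pow_mul, show (1 / 2 : ℝ) ^ 2 = 1 / 4 by norm_num, one_div_pow]
        rw [h7, ← hcd]
        push_cast
        have h8 : (3 * (cd : ℝ) * 4 ^ k) * (1 / 4 ^ k) = 3 * (cd : ℝ) := by
          field_simp
        rw [h8])
      {H | rkF ℚ (N * N / 7) (eF N) (fun _ => 1)
        (univ.filter fun W : Fin (4 * (N * N)) → Fin 24 → ZMod 2 => ∀ j, W j ≠ 0) H ≤
        (2 ^ (3 * k) * (cd + 1) * rowKH (N * N) (4 * (N * N)) 24 (N * N / 7) : ℕ)}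
      ⟨PW (eF N) 0, negIn (eF N) (fun _ => 1) 0, blockF_PW h2 0, blockF_neg N 0⟩ (by
        intro L θ hL hLS hcon
        have h7 := rkF_amplify (F := ℚ) (d := N * N / 7) (e := eF N) (fun _ => 1)
          (univ.filter fun W : Fin (4 * (N * N)) → Fin 24 → ZMod 2 => ∀ j, W j ≠ 0) L θ hcon
          (N₀ := (2 ^ (3 * k) * (cd + 1) * rowKH (N * N) (4 * (N * N)) 24 (N * N / 7) : ℕ))
          (by positivity) hLS i j (by rw [hL]; exact e1) (by rw [← hcd]; exact e2)
        have h8 := rk_largeH hE (fun _ => 1) (by omega) (by omega) (blockF_PW h2) (blockF_neg N)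
          (Q := 5 ^ (2 * i + j + 2) * (2 ^ (3 * k) * (cd + 1))) (by
            refine h7.trans (le_of_eq ?_)
            push_cast
            ring)
        rw [hcd, hcdz] at e3 e4 h8
        have h11 := num_thrH hk h1 e3 e4
        exact absurd (lt_of_le_of_lt h8 h11) (lt_irrefl _))
    refine ⟨μ, m1, m2, fun ts T b A hq hA => ?_⟩
    have h11 := m4 (devClass k) ts T b A (fun H hH => by
      have h12 := orSet_dev_rkH ℚ (fun _ => 1)
        (univ.filter fun W : Fin (4 * (N * N)) → Fin 24 → ZMod 2 => ∀ j, W j ≠ 0) hE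
        (by omega) hq hH
      rw [← hcd] at h12
      exact h12) hA
    refine (le_of_eq (sum_filter_iff' μ _ _ _ _ fun x => Iff.rfl)).trans (h11.trans ?_)
    have hr' : (0 : ℝ) < (r : ℕ) := by exact_mod_cast hr
    have h12 : (n : ℝ) ≤ 2 * c * (r : ℕ) := by
      have h2 : n < c * (n / c + 1) := Nat.lt_mul_div_succ n hc0
      rw [← hrd, mul_add, mul_one] at h2
      have h3 : c ≤ c * r := Nat.le_mul_of_pos_right _ hr
      have h4 : n ≤ 2 * c * r := by
        rw [mul_assoc]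
        omega
      exact_mod_cast h4
    have h13 : ((T : ℝ) + 1) * b / (2 * (r : ℕ)) ≤ (T + 1) * b * c / n := by
      rw [div_le_div_iff₀ (by positivity) hn']
      have h6 : (0 : ℝ) ≤ (T + 1) * b := by positivity
      calc ((T : ℝ) + 1) * b * n ≤ (T + 1) * b * (2 * c * (r : ℕ)) :=
            mul_le_mul_of_nonneg_left h12 h6
        _ = (T + 1) * b * c * (2 * (r : ℕ)) := by ring
    linarith

end Pool.Agent.NXL
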