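import Mathlib

set_option autoImplicit false

/-!
# The equations on the Margulis graph, in natural numbers

The vertex `(a, b)` of `Z_N^2` has the number `a N + b`, the edge `j < 4` which starts at vertex `i`
has the number `4 i + j`.
-/

namespace Pool.Agent.NXL

/-- The edges at vertex `i`: for `c < 4` the edge `c` which starts there, for `c = 4 + j` the edge
`j` which ends there. -/
def eN (N i c : ℕ) : ℕ :=
  if c < 4 then 4 * i + c
  else if c = 4 then 4 * ((i / N + 2 * (N - i % N)) % N * N + i % N)
  else if c = 5 then 4 * ((i / N + 2 * (N - i % N) + (N - 1)) % N * N + i % N) + 1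
  else if c = 6 then 4 * (i / N * N + (i % N + 2 * (N - i / N)) % N) + 2
  else 4 * (i / N * N + (i % N + 2 * (N - i / N) + (N - 1)) % N) + 3

theorem code_lt {N a b : ℕ} (ha : a < N) (hb : b < N) : a * N + b < N * N := by
  have h : (a + 1) * N ≤ N * N := Nat.mul_le_mul_right _ ha
  have h2 : (a + 1) * N = a * N + N := by ring
  omega

theorem eN_lt {N i c : ℕ} (hi : i < N * N) (_hc : c < 8) : eN N i c < 4 * (N * N) := by
  have hN : 0 < N := by
    rcases Nat.eq_zero_or_pos N with h | h
    · subst h; simp at hi
    · exact h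
  have ha : i / N < N := Nat.div_lt_of_lt_mul hi
  have hb : i % N < N := Nat.mod_lt _ hN
  unfold eN
  split_ifs
  · omega
  · have := code_lt (Nat.mod_lt (i / N + 2 * (N - i % N)) hN) hb; omega
  · have := code_lt (Nat.mod_lt (i / N + 2 * (N - i % N) + (N - 1)) hN) hb; omega
  · have := code_lt ha (Nat.mod_lt (i % N + 2 * (N - i / N)) hN); omega
  · have := code_lt ha (Nat.mod_lt (i % N + 2 * (N - i / N) + (N - 1)) hN); omega

/-- The unknowns of the equations. -/
def eF (N : ℕ) (i : Fin (N * N)) (c : Fin 8) : Fin (4 * (N * N)) :=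
  ⟨eN N i c, eN_lt i.2 c.2⟩

end Pool.Agent.NXL
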