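import Pool.Agent.NXL.Marg
import Pool.Agent.NXL.Eq
import Pool.Agent.XL.Sys

set_option autoImplicit false

/-!
# The list of equations and the edge boundary in the Margulis graph

The vertices of the graph have the numbers `0, ..., N^2 - 1` (`vE`), the edges the numbers
`0, ..., 4 N^2 - 1` (`eE`). The unknowns which occur an odd number of times in a set of equations
are the edges with exactly one end in the corresponding set of vertices.
-/

namespace Pool.Agent.NXL

open Finset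

variable {N : ℕ}

/-- The vertex with number `i`. -/
def vx (N : ℕ) (i : ℕ) : Vt N := (((i / N : ℕ) : ZMod N), ((i % N : ℕ) : ZMod N))

/-- The number of a vertex. -/
def cd (p : Vt N) : ℕ := p.1.val * N + p.2.val

theorem vx_cd [NeZero N] (p : Vt N) : vx N (cd p) = p := by
  have hN : 0 < N := NeZero.pos N
  have h2 : p.2.val < N := ZMod.val_lt _
  have h3 : (p.1.val * N + p.2.val) / N = p.1.val := by
    rw [mul_comm, Nat.mul_add_div hN, Nat.div_eq_of_lt h2, add_zero]
  have h4 : (p.1.val * N + p.2.val) % N = p.2.val := by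
    rw [mul_comm, Nat.mul_add_mod, Nat.mod_eq_of_lt h2]
  unfold vx cd
  rw [h3, h4, ZMod.natCast_zmod_val, ZMod.natCast_zmod_val]

theorem cd_vx [NeZero N] {i : ℕ} (hi : i < N * N) : cd (vx N i) = i := by
  have hN : 0 < N := NeZero.pos N
  have h1 : i / N < N := Nat.div_lt_of_lt_mul hi
  have h2 : i % N < N := Nat.mod_lt _ hN
  unfold vx cd
  rw [ZMod.val_natCast_of_lt h1, ZMod.val_natCast_of_lt h2]
  exact Nat.div_add_mod' i N

theorem cd_lt [NeZero N] (p : Vt N) : cd p < N * N :=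
  code_lt (ZMod.val_lt _) (ZMod.val_lt _)

/-- The numbering of the vertices. -/
def vE (N : ℕ) [NeZero N] : Fin (N * N) ≃ Vt N where
  toFun i := vx N i
  invFun p := ⟨cd p, cd_lt p⟩
  left_inv i := Fin.ext (cd_vx i.2)
  right_inv p := vx_cd p

/-- The numbering of the edges. -/
def eE (N : ℕ) [NeZero N] : Ed N ≃ Fin (4 * (N * N)) where
  toFun p := ⟨4 * cd p.1 + p.2, by have := cd_lt p.1; have := p.2.2; omega⟩
  invFun k := (vx N ((k : ℕ) / 4), ⟨(k : ℕ) % 4, Nat.mod_lt _ (by norm_num)⟩)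
  left_inv p := by
    have h1 : (4 * cd p.1 + (p.2 : ℕ)) / 4 = cd p.1 := by have := p.2.2; omega
    have h2 : (4 * cd p.1 + (p.2 : ℕ)) % 4 = p.2 := by have := p.2.2; omega
    refine Prod.ext ?_ (Fin.ext h2)
    show vx N ((4 * cd p.1 + (p.2 : ℕ)) / 4) = p.1
    rw [h1, vx_cd]
  right_inv k := by
    have h1 : (k : ℕ) / 4 < N * N := by have := k.2; omega
    refine Fin.ext ?_
    show 4 * cd (vx N ((k : ℕ) / 4)) + (k : ℕ) % 4 = k
    rw [cd_vx h1]
    omega

theorem vE_fst [NeZero N] (i : Fin (N * N)) : (vE N i).1 = (((i : ℕ) / N : ℕ) : ZMod N) := rfl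

theorem vE_snd [NeZero N] (i : Fin (N * N)) : (vE N i).2 = (((i : ℕ) % N : ℕ) : ZMod N) := rfl

/-- Two edges with the same number of the type and the same coordinates are equal. -/
theorem eF_eq [NeZero N] {i : Fin (N * N)} {c : Fin 8} {p : Ed N} {a b : ℕ} (ha : a < N)
    (hb : b < N) (h : eN N i c = 4 * (a * N + b) + p.2) (h1 : p.1.1 = (a : ZMod N))
    (h2 : p.1.2 = (b : ZMod N)) : eF N i c = eE N p := by
  refine Fin.ext ?_
  show eN N i c = 4 * cd p.1 + p.2
  rw [h]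
  unfold cd
  rw [h1, h2, ZMod.val_natCast_of_lt ha, ZMod.val_natCast_of_lt hb]

theorem natCast_sub' {a : ℕ} (ha : a ≤ N) : ((N - a : ℕ) : ZMod N) = -(a : ZMod N) := by
  rw [Nat.cast_sub ha, ZMod.natCast_self, zero_sub]

theorem natCast_pred' (hN : 0 < N) : ((N - 1 : ℕ) : ZMod N) = -1 := by
  rw [Nat.cast_sub hN, ZMod.natCast_self, zero_sub, Nat.cast_one]

theorem eF_low [NeZero N] (i : Fin (N * N)) (j : Fin 4) (c : Fin 8) (hc : (c : ℕ) = j) :
    eF N i c = eE N (vE N i, j) := by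
  have hN : 0 < N := NeZero.pos N
  refine eF_eq (a := (i : ℕ) / N) (b := (i : ℕ) % N) (Nat.div_lt_of_lt_mul i.2)
    (Nat.mod_lt _ hN) ?_ rfl rfl
  have h : (c : ℕ) < 4 := hc ▸ j.2
  rw [Nat.div_add_mod']
  unfold eN
  rw [if_pos h, hc]

theorem eF_four [NeZero N] (i : Fin (N * N)) : eF N i 4 = eE N ((T 0).symm (vE N i), 0) := by
  have hN : 0 < N := NeZero.pos N
  have h2 : (i : ℕ) % N < N := Nat.mod_lt _ hN
  refine eF_eq (Nat.mod_lt ((i : ℕ) / N + 2 * (N - (i : ℕ) % N)) hN) h2 rfl ?_ rfl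
  show (vE N i).1 - 2 * (vE N i).2 = _
  rw [ZMod.natCast_mod, vE_fst, vE_snd]
  push_cast [natCast_sub' h2.le]
  ring

theorem eF_five [NeZero N] (i : Fin (N * N)) : eF N i 5 = eE N ((T 1).symm (vE N i), 1) := by
  have hN : 0 < N := NeZero.pos N
  have h2 : (i : ℕ) % N < N := Nat.mod_lt _ hN
  refine eF_eq (Nat.mod_lt ((i : ℕ) / N + 2 * (N - (i : ℕ) % N) + (N - 1)) hN) h2 rfl ?_ rfl
  show (vE N i).1 - 2 * (vE N i).2 - 1 = _
  rw [ZMod.natCast_mod, vE_fst, vE_snd]
  push_cast [natCast_sub' h2.le, natCast_pred' hN]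
  ring

theorem eF_six [NeZero N] (i : Fin (N * N)) : eF N i 6 = eE N ((T 2).symm (vE N i), 2) := by
  have hN : 0 < N := NeZero.pos N
  have h1 : (i : ℕ) / N < N := Nat.div_lt_of_lt_mul i.2
  refine eF_eq h1 (Nat.mod_lt ((i : ℕ) % N + 2 * (N - (i : ℕ) / N)) hN) rfl rfl ?_
  show (vE N i).2 - 2 * (vE N i).1 = _
  rw [ZMod.natCast_mod, vE_fst, vE_snd]
  push_cast [natCast_sub' h1.le]
  ring

theorem eF_seven [NeZero N] (i : Fin (N * N)) : eF N i 7 = eE N ((T 3).symm (vE N i), 3) := by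
  have hN : 0 < N := NeZero.pos N
  have h1 : (i : ℕ) / N < N := Nat.div_lt_of_lt_mul i.2
  refine eF_eq h1 (Nat.mod_lt ((i : ℕ) % N + 2 * (N - (i : ℕ) / N) + (N - 1)) hN) rfl rfl ?_
  show (vE N i).2 - 2 * (vE N i).1 - 1 = _
  rw [ZMod.natCast_mod, vE_fst, vE_snd]
  push_cast [natCast_sub' h1.le, natCast_pred' hN]
  ring

/-- The sum over the unknowns of an equation. -/
theorem sum_eF [NeZero N] {α : Type*} [AddCommMonoid α] (f : Fin (4 * (N * N)) → α)
    (i : Fin (N * N)) :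
    ∑ c, f (eF N i c)
      = ∑ j : Fin 4, (f (eE N (vE N i, j)) + f (eE N ((T j).symm (vE N i), j))) := by
  rw [Fin.sum_univ_eight, Fin.sum_univ_four, eF_low i 0 0 rfl, eF_low i 1 1 rfl,
    eF_low i 2 2 rfl, eF_low i 3 3 rfl, eF_four, eF_five, eF_six, eF_seven]
  abel

theorem par_eE [NeZero N] (A : Finset (Fin (N * N))) (z : Vt N) (j : Fin 4) :
    XL.par (eF N) A (eE N (z, j))
      = (if z ∈ A.map (vE N).toEmbedding then 1 else 0)
        + if T j z ∈ A.map (vE N).toEmbedding then 1 else 0 := by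
  have h : ∀ i, (∑ c : Fin 8, if eF N i c = eE N (z, j) then (1 : ZMod 2) else 0)
      = (if i = (vE N).symm z then 1 else 0) + if i = (vE N).symm (T j z) then 1 else 0 := by
    intro i
    rw [sum_eF (fun u => if u = eE N (z, j) then (1 : ZMod 2) else 0) i, sum_add_distrib]
    congr 1
    · rw [sum_eq_single j]
      · simp only [EmbeddingLike.apply_eq_iff_eq, Prod.mk.injEq, and_true, Equiv.eq_symm_apply]
      · intro j' _ hj'
        simp [hj']
      · simp
    · rw [sum_eq_single j]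
      · simp only [EmbeddingLike.apply_eq_iff_eq, Prod.mk.injEq, and_true, Equiv.eq_symm_apply,
          Equiv.symm_apply_eq]
      · intro j' _ hj'
        simp [hj']
      · simp
  unfold XL.par
  simp only [h, sum_add_distrib, sum_ite_eq', mem_map_equiv]

theorem ite_add_ite_ne (p q : Prop) [Decidable p] [Decidable q] :
    ((if p then (1 : ZMod 2) else 0) + (if q then 1 else 0) ≠ 0) ↔ ¬(p ↔ q) := by
  have h1 : ((1 : ZMod 2) + 1 = 0) := by decide
  by_cases hp : p <;> by_cases hq : q <;> simp [hp, hq, h1]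

/-- The unknowns which occur an odd number of times in the equations of `A`: the edges with exactly
one end in `A`. -/
theorem supp_eq [NeZero N] (A : Finset (Fin (N * N))) :
    XL.supp (eF N) A = (bd (A.map (vE N).toEmbedding)).map (eE N).toEmbedding := by
  ext k
  obtain ⟨⟨z, j⟩, rfl⟩ := (eE N).surjective k
  have h5 : eE N (z, j) ∈ (bd (A.map (vE N).toEmbedding)).map (eE N).toEmbedding ↔
      (z, j) ∈ bd (A.map (vE N).toEmbedding) := by
    rw [mem_map_equiv, Equiv.symm_apply_apply]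
  rw [h5, XL.supp, mem_filter, par_eE, bd, mem_filter, ite_add_ite_ne]
  simp only [mem_univ, true_and]

theorem card_supp [NeZero N] (A : Finset (Fin (N * N))) :
    (XL.supp (eF N) A).card = (bd (A.map (vE N).toEmbedding)).card := by
  rw [supp_eq, card_map]

theorem expandH_of [NeZero N]
    (hE : ∀ A : Finset (Vt N), 7 * ((A.card : ℝ) * ((N : ℝ) ^ 2 - A.card))
      ≤ 10 * ((N : ℝ) ^ 2 * (bd A).card))
    (A : Finset (Fin (N * N))) (hA : 7 * A.card ≤ 2 * (N * N)) :
    A.card ≤ 2 * (XL.supp (eF N) A).card := by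
  have h := hE (A.map (vE N).toEmbedding)
  rw [← card_supp, card_map] at h
  have hN : (0 : ℝ) < (N : ℝ) ^ 2 := by
    have : (0 : ℝ) < N := by exact_mod_cast NeZero.pos N
    positivity
  have hA' : 7 * (A.card : ℝ) ≤ 2 * (N : ℝ) ^ 2 := by
    have : ((7 * A.card : ℕ) : ℝ) ≤ ((2 * (N * N) : ℕ) : ℝ) := by exact_mod_cast hA
    push_cast at this
    nlinarith
  have h0 : (0 : ℝ) ≤ A.card := by positivity
  have h1 : (A.card : ℝ) * (5 * (N : ℝ) ^ 2) ≤ A.card * (7 * ((N : ℝ) ^ 2 - A.card)) :=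
    mul_le_mul_of_nonneg_left (by linarith) h0
  have h2 : (N : ℝ) ^ 2 * A.card ≤ (N : ℝ) ^ 2 * (2 * (XL.supp (eF N) A).card) := by
    nlinarith
  have h3 := le_of_mul_le_mul_left h2 hN
  exact_mod_cast h3

/-- The sum of all equations is `0 = 1`. -/
theorem sum_viol [NeZero N] (hN : Odd N) (z : Fin (4 * (N * N)) → ZMod 2) :
    ∑ i, XL.viol (eF N) (fun _ => 1) z i = 1 := by
  have h1 : ∀ a : ZMod 2, a + a = 0 := by decide
  have h2 : ∀ j : Fin 4, ∑ i : Fin (N * N), z (eE N (vE N i, j)) = ∑ v, z (eE N (v, j)) := fun j =>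
    (vE N).sum_comp fun v => z (eE N (v, j))
  have h3 : ∀ j : Fin 4, ∑ i : Fin (N * N), z (eE N ((T j).symm (vE N i), j))
      = ∑ v, z (eE N (v, j)) := fun j =>
    ((vE N).trans (T j).symm).sum_comp fun v => z (eE N (v, j))
  unfold XL.viol
  simp only [sum_eF (fun u => z u), sum_add_distrib]
  rw [sum_comm, sum_comm (f := fun i j => z (eE N ((T j).symm (vE N i), j)))]
  simp only [h2, h3, h1, add_zero]
  rw [sum_const, card_univ, Fintype.card_fin, nsmul_eq_mul, mul_one]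
  obtain ⟨r, hr⟩ := hN.mul hN
  rw [hr]
  push_cast
  have h4 : (2 : ZMod 2) = 0 := by decide
  rw [h4, zero_mul, zero_add]

theorem sum_one (N : ℕ) (hN : Odd N) (z : Fin (4 * (N * N)) → ZMod 2) :
    ∃ i, XL.viol (eF N) (fun _ => 1) z i ≠ 0 := by
  have : NeZero N := ⟨hN.pos.ne'⟩
  by_contra! h
  have h1 := sum_viol hN z
  rw [sum_eq_zero fun i _ => h i] at h1
  exact absurd h1 (by decide)

theorem occurs (N : ℕ) (j : Fin (4 * (N * N))) : ∃ i c, eF N i c = j := by
  have h1 : (j : ℕ) / 4 < N * N := by have := j.2; omega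
  have h2 : (j : ℕ) % 4 < 4 := Nat.mod_lt _ (by norm_num)
  refine ⟨⟨(j : ℕ) / 4, h1⟩, ⟨(j : ℕ) % 4, by omega⟩, Fin.ext ?_⟩
  show eN N ((j : ℕ) / 4) ((j : ℕ) % 4) = j
  unfold eN
  rw [if_pos h2]
  omega

end Pool.Agent.NXL
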