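import Pool.Agent.NXL.Sem
import Pool.Agent.NXL.List

set_option autoImplicit false

/-!
# The positive inputs have certificates
-/

namespace Pool.Agent.NXL

open Finset

theorem par_univ (N : ℕ) (j : Fin (4 * (N * N))) : XL.par (eF N) univ j = 0 := by
  rcases Nat.eq_zero_or_pos N with h | h
  · subst h
    exact absurd j.2 (by simp)
  · haveI : NeZero N := ⟨h.ne'⟩
    obtain ⟨⟨z, i⟩, rfl⟩ := (eE N).surjective j
    rw [par_eE]
    have h1 : ∀ p : Vt N, p ∈ (univ : Finset (Fin (N * N))).map (vE N).toEmbedding := by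
      intro p
      rw [Finset.mem_map]
      exact ⟨(vE N).symm p, mem_univ _, by simp⟩
    rw [if_pos (h1 _), if_pos (h1 _)]
    decide

variable {N : ℕ} (W : Fin (4 * (N * N)) → Fin 24 → ZMod 2)

lemma inner (i : Fin (N * N)) (P : ℕ → Prop) [DecidablePred P] :
    (∑ l ∈ range KK, if word N (XL.PW (eF N) W) (KK * i + l) = true ∧ P l then 1 else 0) =
      if P (lab fun c => W (eF N i c)) then 1 else 0 := by
  classical
  have h1 : ∀ l < KK, (word N (XL.PW (eF N) W) (KK * i + l) = true ↔
      l = lab fun c => W (eF N i c)) := by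
    intro l hl
    rw [word_of_lt _ i.2 hl]
    unfold XL.PW
    rw [decide_eq_true_eq]
    constructor
    · intro h
      exact eq_lab hl h
    · rintro rfl
      exact dec_lab _
  rw [Finset.sum_eq_single (lab fun c => W (eF N i c))]
  · simp only [(h1 _ (lab_lt _)).mpr rfl, true_and]
  · intro l hl hne
    rw [mem_range] at hl
    rw [if_neg]
    rintro ⟨h, -⟩
    exact hne ((h1 l hl).mp h)
  · intro h
    exact absurd (mem_range.mpr (lab_lt _)) h

/-- The positive inputs have certificates. -/
theorem cert_PW (hN : Odd N) : Cert N (word N (XL.PW (eF N) W)) (word N (XL.PW (eF N) W)) := by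
  classical
  have hdiv : ∀ i l, l < KK → (KK * i + l) / KK = i := fun i l hl => by
    rw [Nat.mul_add_div KK_pos, Nat.div_eq_of_lt hl, add_zero]
  have hmod : ∀ i l, l < KK → (KK * i + l) % KK = l := fun i l hl => by
    rw [Nat.mul_add_mod, Nat.mod_eq_of_lt hl]
  refine ⟨fun a _ h => h, ?_, fun g hg t ht => ?_⟩
  · rw [sum_mul_range, Finset.sum_range]
    have h1 : ∀ i : Fin (N * N), (∑ l ∈ range KK,
        if word N (XL.PW (eF N) W) (KK * (i : ℕ) + l) = true then 1 else 0) = 1 := by
      intro i
      have h2 := inner W i (fun _ => True)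
      simp only [and_true, if_true] at h2
      exact h2
    rw [Finset.sum_congr rfl fun i _ => h1 i]
    simp only [sum_const, card_univ, Fintype.card_fin, smul_eq_mul, mul_one]
    exact Nat.odd_iff.mp (hN.mul hN)
  · rw [sum_mul_range, Finset.sum_range]
    have h1 : ∀ i : Fin (N * N), (∑ l ∈ range KK, ∑ c ∈ range 8,
        if word N (XL.PW (eF N) W) (KK * (i : ℕ) + l) = true ∧
          eN N ((KK * (i : ℕ) + l) / KK) c = g ∧
          ((KK * (i : ℕ) + l) % KK).testBit (24 * c + t) = true then 1 else 0) =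
        ∑ c : Fin 8, if eF N i c = ⟨g, hg⟩ then (if W ⟨g, hg⟩ ⟨t, ht⟩ = 1 then 1 else 0) else 0 := by
      intro i
      rw [Finset.sum_comm, Finset.sum_range]
      refine Finset.sum_congr rfl fun c _ => ?_
      have h2 : ∀ l ∈ range KK, (if word N (XL.PW (eF N) W) (KK * (i : ℕ) + l) = true ∧
          eN N ((KK * (i : ℕ) + l) / KK) c = g ∧
          ((KK * (i : ℕ) + l) % KK).testBit (24 * c + t) = true then 1 else 0) =
          if word N (XL.PW (eF N) W) (KK * (i : ℕ) + l) = true ∧
          (eN N i c = g ∧ l.testBit (24 * c + t) = true) then 1 else 0 := by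
        intro l hl
        rw [mem_range] at hl
        simp only [hdiv i l hl, hmod i l hl]
      rw [Finset.sum_congr rfl h2, inner W i (fun l => eN N i c = g ∧
        l.testBit (24 * c + t) = true)]
      have h3 := lab_testBit (fun c => W (eF N i c)) c ⟨t, ht⟩
      simp only at h3
      have h4 : (eN N i c = g) ↔ (eF N i c = ⟨g, hg⟩) := by
        rw [Fin.ext_iff]; rfl
      rw [h3]
      by_cases h5 : eF N i c = ⟨g, hg⟩
      · have h6 := h4.mpr h5
        rw [if_pos h5]
        simp only [h6, true_and, decide_eq_true_eq, h5]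
      · rw [if_neg h5, if_neg (fun h7 => h5 (h4.mp h7.1))]
    rw [Finset.sum_congr rfl fun i _ => h1 i]
    apply mod_even
    push_cast
    have h8 : ∑ i : Fin (N * N), ∑ c : Fin 8,
        (if eF N i c = ⟨g, hg⟩ then (if W ⟨g, hg⟩ ⟨t, ht⟩ = 1 then (1 : ZMod 2) else 0) else 0) =
        (if W ⟨g, hg⟩ ⟨t, ht⟩ = 1 then (1 : ZMod 2) else 0) * XL.par (eF N) univ ⟨g, hg⟩ := by
      unfold XL.par
      rw [Finset.mul_sum]
      refine Finset.sum_congr rfl fun i _ => ?_
      rw [Finset.mul_sum]
      refine Finset.sum_congr rfl fun c _ => ?_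
      by_cases h5 : eF N i c = ⟨g, hg⟩
      · rw [if_pos h5, if_pos h5, mul_one]
      · rw [if_neg h5, if_neg h5, mul_zero]
    rw [par_univ, mul_zero] at h8
    exact h8

end Pool.Agent.NXL
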