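import Pool.Agent.NXL.Diamond

set_option autoImplicit false

/-!
# The spectral gap of the Margulis graph
-/

namespace Pool.Agent.NXL

open Finset
open scoped BigOperators ComplexConjugate

variable {N : ℕ} [NeZero N]

/-- The character `exp (2 π i a / N)`. -/
noncomputable def ee (a : ZMod N) : ℂ := ZMod.stdAddChar a

theorem ee_add (a b : ZMod N) : ee (a + b) = ee a * ee b := AddChar.map_add_eq_mul _ _ _

theorem ee_zero : ee (0 : ZMod N) = 1 := AddChar.map_zero_eq_one _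

theorem norm_ee (a : ZMod N) : ‖ee a‖ = 1 := by
  rw [ee, ZMod.stdAddChar_apply]
  exact Circle.norm_coe _

theorem conj_ee (a : ZMod N) : conj (ee a) = ee (-a) := by
  rw [ee, ee, AddChar.map_neg_eq_inv, ZMod.stdAddChar_apply, ← Circle.coe_inv,
    Circle.coe_inv_eq_conj]

theorem norm_one_add (a : ZMod N) :
    ‖1 + ee (-a)‖ = 2 * |Real.cos (Real.pi * (a.val : ℝ) / N)| := by
  have h1 : ‖1 + ee (-a)‖ = ‖1 + ee a‖ := by
    have h2 : ee a * (1 + ee (-a)) = 1 + ee a := by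
      rw [mul_add, mul_one, ← ee_add, add_neg_cancel, ee_zero, add_comm]
    rw [← h2, norm_mul, norm_ee, one_mul]
  rw [h1]
  obtain ⟨t, ht⟩ : ∃ t : ℝ, t = Real.pi * (a.val : ℝ) / N := ⟨_, rfl⟩
  rw [← ht]
  have h3 : ee a = Complex.exp (t * Complex.I) * Complex.exp (t * Complex.I) := by
    rw [ee, ZMod.stdAddChar_apply, ZMod.toCircle_apply, ← Complex.exp_add]
    congr 1
    rw [ht]
    push_cast
    ring
  have h4 : (1 : ℂ) + ee a = Complex.exp (t * Complex.I) * ((2 : ℝ) * (Real.cos t : ℝ)) := by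
    rw [h3, Complex.ofReal_cos, Complex.ofReal_ofNat, Complex.two_cos, mul_add, ← Complex.exp_add,
      ← Complex.exp_add]
    rw [show (t : ℂ) * Complex.I + -(t : ℂ) * Complex.I = 0 by ring, Complex.exp_zero, add_comm]
  rw [h4, norm_mul, Complex.norm_exp_ofReal_mul_I, one_mul, ← Complex.ofReal_mul,
    Complex.norm_real, Real.norm_eq_abs, abs_mul]
  norm_num

theorem sum_ee (a b : ZMod N) :
    ∑ u : Vt N, ee (u.1 * a + u.2 * b) = if a = 0 ∧ b = 0 then (N : ℂ) ^ 2 else 0 := by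
  have h1 : ∀ c : ZMod N, ∑ x : ZMod N, ee (x * c) = if c = 0 then (N : ℂ) else 0 := by
    intro c
    have h2 := AddChar.sum_mulShift c (ZMod.isPrimitive_stdAddChar N)
    rw [ZMod.card] at h2
    simp only [ee]
    rw [h2]
    split_ifs <;> simp
  rw [Fintype.sum_prod_type]
  simp only [ee_add]
  simp only [← Finset.mul_sum]
  rw [← Finset.sum_mul, h1, h1]
  by_cases ha : a = 0
  · by_cases hb : b = 0
    · simp only [ha, hb, if_true, and_self]
      ring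
    · simp only [ha, hb, if_true, if_false, and_false, mul_zero]
  · simp only [ha, if_false, false_and, zero_mul]

/-- The Fourier transform. -/
noncomputable def FF (f : Vt N → ℝ) (u : Vt N) : ℂ := ∑ z, (f z : ℂ) * ee (u.1 * z.1 + u.2 * z.2)

theorem parseval (f g : Vt N → ℝ) :
    ∑ u, conj (FF f u) * FF g u = (N : ℂ) ^ 2 * ((∑ z, f z * g z : ℝ) : ℂ) := by
  classical
  have h1 : ∀ u : Vt N, conj (FF f u) * FF g u =
      ∑ z, ∑ w, (f z : ℂ) * (g w : ℂ) * ee (u.1 * (w.1 - z.1) + u.2 * (w.2 - z.2)) := by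
    intro u
    rw [FF, FF, map_sum, Finset.sum_mul_sum]
    refine Finset.sum_congr rfl fun z _ => Finset.sum_congr rfl fun w _ => ?_
    rw [map_mul, Complex.conj_ofReal, conj_ee]
    rw [show u.1 * (w.1 - z.1) + u.2 * (w.2 - z.2) =
      -(u.1 * z.1 + u.2 * z.2) + (u.1 * w.1 + u.2 * w.2) by ring,
      ee_add (-(u.1 * z.1 + u.2 * z.2)) (u.1 * w.1 + u.2 * w.2)]
    ring
  rw [Finset.sum_congr rfl fun u _ => h1 u, Finset.sum_comm]
  have h2 : ∀ z : Vt N, ∑ u : Vt N, ∑ w : Vt N,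
      (f z : ℂ) * (g w : ℂ) * ee (u.1 * (w.1 - z.1) + u.2 * (w.2 - z.2)) =
      (N : ℂ) ^ 2 * ((f z : ℂ) * (g z : ℂ)) := by
    intro z
    rw [Finset.sum_comm]
    simp only [← Finset.mul_sum, sum_ee]
    rw [Finset.sum_eq_single z]
    · simp only [sub_self, and_self, if_true]
      ring
    · intro w _ hw
      rw [if_neg, mul_zero]
      rintro ⟨h3, h4⟩
      apply hw
      ext
      · exact sub_eq_zero.1 h3
      · exact sub_eq_zero.1 h4
    · intro h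
      exact absurd (Finset.mem_univ _) h
  rw [Finset.sum_congr rfl fun z _ => h2 z, ← Finset.mul_sum]
  push_cast
  rfl

theorem FF_T0 (f : Vt N → ℝ) (u : Vt N) :
    FF (fun z => f (T 0 z)) u = FF f (u.1, u.2 - 2 * u.1) := by
  rw [FF, FF, ← Equiv.sum_comp (T 0) (fun w : Vt N =>
    (f w : ℂ) * ee ((u.1, u.2 - 2 * u.1).1 * w.1 + (u.1, u.2 - 2 * u.1).2 * w.2))]
  refine Finset.sum_congr rfl fun z _ => ?_
  congr 2
  show u.1 * z.1 + u.2 * z.2 = u.1 * (z.1 + 2 * z.2) + (u.2 - 2 * u.1) * z.2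
  ring

theorem FF_T1 (f : Vt N → ℝ) (u : Vt N) :
    FF (fun z => f (T 1 z)) u = ee (-u.1) * FF f (u.1, u.2 - 2 * u.1) := by
  rw [FF, FF, Finset.mul_sum, ← Equiv.sum_comp (T 1) (fun w : Vt N => ee (-u.1) *
    ((f w : ℂ) * ee ((u.1, u.2 - 2 * u.1).1 * w.1 + (u.1, u.2 - 2 * u.1).2 * w.2)))]
  refine Finset.sum_congr rfl fun z _ => ?_
  rw [mul_left_comm, ← ee_add]
  congr 2
  show u.1 * z.1 + u.2 * z.2 = -u.1 + (u.1 * (z.1 + 2 * z.2 + 1) + (u.2 - 2 * u.1) * z.2)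
  ring

theorem FF_T2 (f : Vt N → ℝ) (u : Vt N) :
    FF (fun z => f (T 2 z)) u = FF f (u.1 - 2 * u.2, u.2) := by
  rw [FF, FF, ← Equiv.sum_comp (T 2) (fun w : Vt N =>
    (f w : ℂ) * ee ((u.1 - 2 * u.2, u.2).1 * w.1 + (u.1 - 2 * u.2, u.2).2 * w.2))]
  refine Finset.sum_congr rfl fun z _ => ?_
  congr 2
  show u.1 * z.1 + u.2 * z.2 = (u.1 - 2 * u.2) * z.1 + u.2 * (z.2 + 2 * z.1)
  ring

theorem FF_T3 (f : Vt N → ℝ) (u : Vt N) :
    FF (fun z => f (T 3 z)) u = ee (-u.2) * FF f (u.1 - 2 * u.2, u.2) := by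
  rw [FF, FF, Finset.mul_sum, ← Equiv.sum_comp (T 3) (fun w : Vt N => ee (-u.2) *
    ((f w : ℂ) * ee ((u.1 - 2 * u.2, u.2).1 * w.1 + (u.1 - 2 * u.2, u.2).2 * w.2)))]
  refine Finset.sum_congr rfl fun z _ => ?_
  rw [mul_left_comm, ← ee_add]
  congr 2
  show u.1 * z.1 + u.2 * z.2 = -u.2 + ((u.1 - 2 * u.2) * z.1 + u.2 * (z.2 + 2 * z.1 + 1))
  ring

/-- The spectral gap. -/
theorem spectral (N : ℕ) [NeZero N] (hN : Odd N) (f : Vt N → ℝ) (hf : ∑ z, f z = 0) :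
    ∑ z, f z * ∑ j : Fin 4, f (T j z) ≤ 73 / 20 * ∑ z, f z ^ 2 := by
  classical
  have hN0 : (0 : ℝ) < (N : ℝ) ^ 2 := by
    have : (0 : ℝ) < N := by exact_mod_cast NeZero.pos N
    positivity
  set X : ℝ := ∑ z, f z * ∑ j : Fin 4, f (T j z) with hX
  have h1 : (N : ℂ) ^ 2 * (X : ℂ) = ∑ u, conj (FF f u) *
      ((1 + ee (-u.1)) * FF f (u.1, u.2 - 2 * u.1) +
        (1 + ee (-u.2)) * FF f (u.1 - 2 * u.2, u.2)) := by
    have h2 : X = (∑ z, f z * f (T 0 z)) + (∑ z, f z * f (T 1 z)) +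
        (∑ z, f z * f (T 2 z)) + (∑ z, f z * f (T 3 z)) := by
      rw [hX, ← Finset.sum_add_distrib, ← Finset.sum_add_distrib, ← Finset.sum_add_distrib]
      refine Finset.sum_congr rfl fun z _ => ?_
      rw [Fin.sum_univ_four]
      ring
    rw [h2, Complex.ofReal_add, Complex.ofReal_add, Complex.ofReal_add, mul_add, mul_add, mul_add,
      ← parseval f (fun z => f (T 0 z)), ← parseval f (fun z => f (T 1 z)),
      ← parseval f (fun z => f (T 2 z)), ← parseval f (fun z => f (T 3 z)),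
      ← Finset.sum_add_distrib, ← Finset.sum_add_distrib, ← Finset.sum_add_distrib]
    refine Finset.sum_congr rfl fun u _ => ?_
    rw [FF_T0, FF_T1, FF_T2, FF_T3]
    ring
  have h3 : (N : ℝ) ^ 2 * X ≤ ∑ u : Vt N, ‖FF f u‖ *
      (2 * |Real.cos (Real.pi * (u.1.val : ℝ) / N)| * ‖FF f (u.1, u.2 - 2 * u.1)‖ +
        2 * |Real.cos (Real.pi * (u.2.val : ℝ) / N)| * ‖FF f (u.1 - 2 * u.2, u.2)‖) := by
    have h4 : (N : ℝ) ^ 2 * X ≤ ‖(N : ℂ) ^ 2 * (X : ℂ)‖ := by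
      have h5 : (N : ℂ) ^ 2 * (X : ℂ) = (((N : ℝ) ^ 2 * X : ℝ) : ℂ) := by push_cast; ring
      rw [h5, Complex.norm_real]
      exact Real.le_norm_self _
    refine h4.trans ?_
    rw [h1]
    refine (norm_sum_le _ _).trans (Finset.sum_le_sum fun u _ => ?_)
    rw [norm_mul, Complex.norm_conj]
    refine mul_le_mul_of_nonneg_left ?_ (norm_nonneg _)
    refine (norm_add_le _ _).trans (le_of_eq ?_)
    rw [norm_mul, norm_mul, norm_one_add, norm_one_add]
  have h6 := diamond N hN (fun u => ‖FF f u‖) (fun u => norm_nonneg _) (by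
    have h7 : FF f (0 : Vt N) = 0 := by
      rw [FF]
      simp only [Prod.fst_zero, Prod.snd_zero, zero_mul, add_zero, ee_zero, mul_one]
      rw [← Complex.ofReal_sum, hf, Complex.ofReal_zero]
    show ‖FF f (0 : Vt N)‖ = 0
    rw [h7, norm_zero])
  have h8 : ∑ u : Vt N, ‖FF f u‖ ^ 2 = (N : ℝ) ^ 2 * ∑ z, f z ^ 2 := by
    have h9 := parseval f f
    have h10 : ∀ u : Vt N, conj (FF f u) * FF f u = ((‖FF f u‖ ^ 2 : ℝ) : ℂ) := by
      intro u
      rw [Complex.conj_mul']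
      push_cast
      rfl
    rw [Finset.sum_congr rfl fun u _ => h10 u, ← Complex.ofReal_sum] at h9
    have h11 : ((∑ u : Vt N, ‖FF f u‖ ^ 2 : ℝ) : ℂ) =
        (((N : ℝ) ^ 2 * ∑ z, f z * f z : ℝ) : ℂ) := by
      rw [h9]
      push_cast
      rfl
    have h12 := Complex.ofReal_injective h11
    rw [h12]
    congr 1
    refine Finset.sum_congr rfl fun z _ => ?_
    ring
  rw [h8] at h6
  have h13 := h3.trans h6
  have h14 : (N : ℝ) ^ 2 * X ≤ (N : ℝ) ^ 2 * (73 / 20 * ∑ z, f z ^ 2) := by linarith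
  exact le_of_mul_le_mul_left h14 hN0

end Pool.Agent.NXL
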