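import Pool.Agent.NXL.EdgeA
import Pool.Agent.NXL.Fourier

/-! Isoperimetry in the Margulis graph. -/

set_option autoImplicit false

namespace Pool.Agent.NXL

/-- **Isoperimetry**: the number of edges leaving a set of vertices of the Margulis graph. -/
theorem edge_bound (N : ℕ) [NeZero N] (hN : Odd N) (A : Finset (Vt N)) :
    7 * ((A.card : ℝ) * ((N : ℝ) ^ 2 - A.card)) ≤ 10 * ((N : ℝ) ^ 2 * (bd A).card) :=
  edge_bound_of N (fun f hf => spectral N hN f hf) A

end Pool.Agent.NXL
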