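import Pool.Agent.NXL.Hard
import Pool.Agent.NXL.Edge

set_option autoImplicit false

/-!
# The hard inputs of a function which contains the explicit system
-/

namespace Pool.Agent.NXL

open Finset Pool.Agent.XL Pool.Agent.NWE

/-- The explicit system is expanding. -/
theorem expandH (N : ℕ) (hN : Odd N) (A : Finset (Fin (N * N))) (hA : 7 * A.card ≤ 2 * (N * N)) :
    A.card ≤ 2 * (supp (eF N) A).card := by
  have : NeZero N := ⟨hN.pos.ne'⟩
  exact expandH_of (fun A => edge_bound N hN A) A hA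

/-- **The hard inputs of a function which contains the explicit system.** -/
theorem hard_list {N k n : ℕ} (hN : Odd N) (hk : 1 ≤ k) (hkN : 2 ^ 16 * k ≤ N * N)
    (g : (Bvar (N * N) 24 → Bool) → Prop) (hg : ∀ u v, u ≤ v → g u → g v)
    (hsound : ∀ u, g u → incon (eF N) (fun _ => 1) u = true)
    (hPW : ∀ W, g (PW (eF N) W))
    (f : (Fin n → Bool) → Prop) (φ : Fin n → Bvar (N * N) 24 ⊕ Bool)
    (hφs : ∀ e, ∃ v, φ v = Sum.inl e) (hφ : ∀ x, f (fun v => Sum.elim x id (φ v)) ↔ g x) :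
    ∃ H : Finset (Fin n → Bool), H.Nonempty ∧ (∀ x ∈ H, f x) ∧
      ∀ (t : ℕ) (G : (Fin t → Bool) → (Fin n ⊕ Fin n → Bool) → Bool),
        (∀ y, Small k (G y)) → (∀ y x, G y (lits x) = true → f x) →
        ∀ A ⊆ H, (∀ x ∈ A, ∃ (y : Fin t → Bool) (Z : Finset (Fin n)),
          (∀ v ∈ Z, x v = false) ∧ t + Z.card ≤ k ∧ G y (litsOn univ Z x) = true) →
          2 ^ k * A.card ≤ H.card :=
  hard_list_of (expandH N hN) hk hkN g hg hsound hPW f φ hφs hφ

end Pool.Agent.NXL
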