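import Pool.Agent.NXL.LangNP
import Pool.Agent.NXL.Main

set_option autoImplicit false

/-!
# The language of disjunctions of certified lists, with selectors of the size of the lists

A word of `m` letters: the first half are the selectors, the second half is cut into blocks of the
size given by a selector which is on; the word is accepted if some block, read as a list of linear
equations, has a certificate of inconsistency.
-/

namespace Pool.Agent.NXL

open Finset Pool.Agent.PolyTime Pool.Agent.NegLim Pool.Agent.NegLim.Lang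

/-- The number `w` (by its bits) certifies that the block `i` of the scale `N` is an inconsistent
list. -/
def Scale (m : ℕ) (x w : ℕ → Bool) : Prop :=
  ∃ N < m / 2, ∃ i < m, (N % 2 = 1 ∧ x N = true) ∧ (m / 2 + (i + 1) * (N * N * KK) ≤ m ∧
    Cert N (fun a => x (m / 2 + i * (N * N * KK) + a)) w)

lemma scale_mono {m : ℕ} {x x' w : ℕ → Bool} (h : ∀ a < m, x a = true → x' a = true)
    (hc : Scale m x w) : Scale m x' w := by
  obtain ⟨N, hN, i, hi, ⟨h1, h2⟩, h3, h4⟩ := hc
  refine ⟨N, hN, i, hi, ⟨h1, h N (by omega) h2⟩, h3, cert_mono (fun a ha h5 => h _ ?_ h5) h4⟩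
  have h6 : (i + 1) * (N * N * KK) = i * (N * N * KK) + N * N * KK := by ring
  omega

lemma scale_congr {m : ℕ} {x w w' : ℕ → Bool} (h : ∀ a < m, w a = w' a)
    (hc : Scale m x w) : Scale m x w' := by
  obtain ⟨N, hN, i, hi, h12, h3, h4⟩ := hc
  refine ⟨N, hN, i, hi, h12, h3, cert_congr (fun a ha => h a ?_) h4⟩
  have h6 : (i + 1) * (N * N * KK) = i * (N * N * KK) + N * N * KK := by ring
  omega

lemma pd_scale {α : Type} [Ctx α] {M : List Bool → α → ℕ} {X W : List Bool → α → ℕ → Bool}
    (hM : PF M) (hX : PD (fun y (p : α × ℕ) => X y p.1 p.2 = true))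
    (hW : PD (fun y (p : α × ℕ) => W y p.1 p.2 = true)) :
    PD (fun y a => Scale (M y a) (X y a) (W y a)) := by
  have hB : PF (fun (_ : List Bool) (p : (α × ℕ) × ℕ) => p.1.2 * p.1.2 * KK) :=
    ((PF.snd.fst).mul (PF.snd.fst)).mul (PF.const KK)
  have h3 : PD (fun y (p : (α × ℕ) × ℕ) => X y p.1.1 p.1.2 = true) :=
    PD.sub1 (Proj.id.fst.fst) (PF.snd.fst) hX
  have h4 : PD (fun y (p : (α × ℕ) × ℕ) => p.1.2 % 2 = 1) :=
    PD.eq ((PF.snd.fst).mod (PF.const 2)) (PF.const 1)
  have h5 : PD (fun y (p : (α × ℕ) × ℕ) =>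
      M y p.1.1 / 2 + (p.2 + 1) * (p.1.2 * p.1.2 * KK) ≤ M y p.1.1) :=
    PD.le (((hM.fst.fst).div (PF.const 2)).add ((PF.snd.add (PF.const 1)).mul hB)) hM.fst.fst
  have h6 : PD (fun y (p : (α × ℕ) × ℕ) => Cert p.1.2
      (fun a => X y p.1.1 (M y p.1.1 / 2 + p.2 * (p.1.2 * p.1.2 * KK) + a)) (W y p.1.1)) := by
    refine pd_cert (N := fun _ (p : (α × ℕ) × ℕ) => p.1.2)
      (X := fun y (p : (α × ℕ) × ℕ) a =>
        X y p.1.1 (M y p.1.1 / 2 + p.2 * (p.1.2 * p.1.2 * KK) + a))
      (W := fun y (p : (α × ℕ) × ℕ) => W y p.1.1) (PF.snd.fst) ?_ ?_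
    · exact PD.sub1 (Proj.id.fst.fst.fst) ((((hM.fst.fst).div (PF.const 2)).add
        (PF.snd.mul hB)).fst.add PF.snd) hX
    · exact PD.sub1 (Proj.id.fst.fst.fst) PF.snd hW
  refine PD.exists_lt (P := fun y (p : α × ℕ) => ∃ i < M y p.1, (p.2 % 2 = 1 ∧
    X y p.1 p.2 = true) ∧ (M y p.1 / 2 + (i + 1) * (p.2 * p.2 * KK) ≤ M y p.1 ∧
    Cert p.2 (fun a => X y p.1 (M y p.1 / 2 + i * (p.2 * p.2 * KK) + a)) (W y p.1)))
    (hM.div (PF.const 2)) ?_
  exact PD.exists_lt (P := fun y (p : (α × ℕ) × ℕ) => (p.1.2 % 2 = 1 ∧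
    X y p.1.1 p.1.2 = true) ∧ (M y p.1.1 / 2 + (p.2 + 1) * (p.1.2 * p.1.2 * KK) ≤ M y p.1.1 ∧
    Cert p.1.2 (fun a => X y p.1.1 (M y p.1.1 / 2 + p.2 * (p.1.2 * p.1.2 * KK) + a))
      (W y p.1.1))) hM.fst ((h4.and h3).and (h5.and h6))

open Classical in
/-- The language: the first `n / d` letters of a word of length `n`. -/
noncomputable def slang (d : ℕ) (x : List Bool) : Bool :=
  decide (∃ w : ℕ → Bool, Scale (x.length / d) (fun i => x.getD i false) w)

lemma slang_iff (d : ℕ) (x : List Bool) : slang d x = true ↔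
    ∃ w : ℕ → Bool, Scale (x.length / d) (fun i => x.getD i false) w := by
  classical
  unfold slang
  exact decide_eq_true_iff

/-- The property of padded words. -/
def PLS (y : List Bool) : Prop :=
  ∃ s < y.length, Scale (wlen y) (wbit y) (fun a => s.testBit a)

lemma pd_pls {α : Type} [Ctx α] : PD (fun y (_ : α) => PLS y) := by
  refine PD.exists_lt (P := fun y (p : α × ℕ) => Scale (wlen y) (wbit y)
    (fun a => p.2.testBit a)) PF.len ?_
  exact pd_scale (M := fun y (_ : α × ℕ) => wlen y) (X := fun y _ => wbit y)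
    (W := fun _ (p : α × ℕ) a => p.2.testBit a) pf_wlen (pd_wbit PF.snd)
    (PD.testBit PF.snd.fst PF.snd)

lemma pls_pad (z : List Bool) : PLS (pad z) ↔
    ∃ w : ℕ → Bool, Scale z.length (fun i => z.getD i false) w := by
  unfold PLS
  rw [wlen_pad]
  have hb : wbit (pad z) = fun i => z.getD i false := by
    funext i
    exact wbit_pad z i
  rw [hb]
  constructor
  · rintro ⟨s, _, h⟩
    exact ⟨_, h⟩
  · rintro ⟨w, h⟩
    refine ⟨Nat.ofBits fun k : Fin z.length => w k, ?_, ?_⟩
    · refine lt_of_lt_of_le (Nat.ofBits_lt_two_pow _) ?_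
      rw [length_pad]
      omega
    · refine scale_congr (fun a ha => ?_) h
      rw [Nat.testBit_ofBits_lt _ _ ha]

/-- **The language is decidable in time `O(2^n)`.** -/
theorem slang_time : ∃ d : ℕ, 1 ≤ d ∧ ∃ c : ℕ,
    DecidableInTime (slang d) (fun n => c * 2 ^ n) := by
  classical
  obtain ⟨d, hd, c, hc⟩ := Zeros.exp_take PLS pd_pls
  refine ⟨d, hd, c, ?_⟩
  have h : slang d = fun x => decide (PLS (pad (x.take (x.length / d)))) := by
    funext x
    rw [Bool.eq_iff_iff, slang_iff, decide_eq_true_iff, pls_pad, List.length_take,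
      min_eq_left (Nat.div_le_self _ _)]
    refine exists_congr fun w => ?_
    have h1 : ∀ i < x.length / d,
        x.getD i false = (x.take (x.length / d)).getD i false := by
      intro i hi
      have h3 : x.length / d ≤ x.length := Nat.div_le_self _ _
      rw [List.getD_eq_getElem _ _ (by omega),
        List.getD_eq_getElem _ _ (by rw [List.length_take]; omega), List.getElem_take]
    exact ⟨fun h => scale_mono (fun a ha hx => by rw [← h1 a ha]; exact hx) h,
      fun h => scale_mono (fun a ha hx => by rw [h1 a ha]; exact hx) h⟩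
  rw [h]
  exact hc

/-- The verifier. -/
def SVer (d : ℕ) (y : List Bool) : Prop := Scale (NPL.plen y / d) (NPL.xbit y) (NPL.sbit y)

lemma pd_sver (d : ℕ) {α : Type} [Ctx α] : PD (fun y (_ : α) => SVer d y) :=
  pd_scale (M := fun y (_ : α) => NPL.plen y / d) (X := fun y _ => NPL.xbit y)
    (W := fun y _ => NPL.sbit y) (NPL.pf_plen.div (PF.const d)) (NPL.pd_xbit PF.snd)
    (NPL.pd_sbit PF.snd)

open Classical in
/-- **The language is in NP.** -/
theorem slang_inNP (d : ℕ) : InNP (slang d) := by
  refine ⟨fun y => decide (SVer d y), 1, Zeros.polyTime_of_pd _ (pd_sver d), fun x => ?_⟩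
  rw [slang_iff]
  have hlt : ∀ a < x.length / d, a < x.length := fun a ha =>
    lt_of_lt_of_le ha (Nat.div_le_self _ _)
  constructor
  · rintro ⟨w, hw⟩
    refine ⟨List.ofFn fun k : Fin x.length => w k, ?_, ?_⟩
    · rw [List.length_ofFn, pow_one]
      omega
    · rw [decide_eq_true_iff]
      unfold SVer
      rw [NPL.plen_pair]
      refine scale_congr (w := w) (fun a ha => ?_) (scale_mono (fun a ha hx => ?_) hw)
      · rw [NPL.sbit_pair, List.getD_eq_getElem _ _ (by rw [List.length_ofFn]; exact hlt a ha),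
          List.getElem_ofFn]
      · rw [NPL.xbit_pair _ _ _ (hlt a ha)]
        exact hx
  · rintro ⟨w, _, hw⟩
    rw [decide_eq_true_iff] at hw
    unfold SVer at hw
    rw [NPL.plen_pair] at hw
    exact ⟨_, scale_mono (fun a ha hx => by rw [← NPL.xbit_pair x w a (hlt a ha)]; exact hx) hw⟩

/-- The language is monotone on the words of each length. -/
theorem slang_mono (d n : ℕ) : Monotone fun x : Fin n → Bool => slang d (List.ofFn x) := by
  intro x y hxy
  rw [Bool.le_iff_imp]
  simp only
  intro hx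
  rw [slang_iff] at hx ⊢
  rw [List.length_ofFn] at hx ⊢
  obtain ⟨w, hw⟩ := hx
  refine ⟨w, scale_mono (fun a ha h => ?_) hw⟩
  have h1 : a < n := lt_of_lt_of_le ha (Nat.div_le_self _ _)
  rw [List.getD_eq_getElem _ _ (by rw [List.length_ofFn]; exact h1), List.getElem_ofFn] at h ⊢
  exact Bool.le_iff_imp.mp (hxy _) h

/-- **Restriction to one scale.** For every odd `N` and `r` with `r N^2 KK + 2 ≤ m / 2` the language
of the words of length `n` restricts to the disjunction of `r` copies of the lists of the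
graph with side `N`. -/
theorem slang_restrict (d n N r : ℕ) (hN : N % 2 = 1) (hr : r * (N * N * KK) ≤ n / d / 2) (hr1 : 1 ≤ r) :
    ∃ φ : Fin n → (Fin r × XL.Bvar (N * N) 24) ⊕ Bool,
      (∀ β, ∃ v, φ v = .inl β) ∧
      ∀ u : Fin r × XL.Bvar (N * N) 24 → Bool,
        slang d (List.ofFn fun v => Sum.elim u id (φ v)) = true ↔
          ∃ i, ∃ w, Cert N (word N fun β => u (i, β)) w := by
  classical
  set m := n / d with hm
  have hmn : m ≤ n := Nat.div_le_self _ _
  have hN1 : 1 ≤ N := by omega
  set B := N * N * KK with hB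
  have hKK := KK_pos
  have hBN : N ≤ B := by
    calc N = N * 1 := (mul_one N).symm
      _ ≤ N * (N * KK) := Nat.mul_le_mul_left _ (Nat.mul_pos hN1 hKK)
      _ = B := by rw [hB]; ring
  have hB0 : 0 < B := by omega
  have hBr : B ≤ r * B := Nat.le_mul_of_pos_left _ hr1
  have hNm : N < m / 2 := by
    -- the blocks have at least two letters more than `N`
    have h1 : N < B := by
      have h2 : 2 ≤ KK := by unfold KK; norm_num
      calc N < N * 2 := by omega
        _ ≤ N * (N * KK) := Nat.mul_le_mul_left _ (h2.trans (Nat.le_mul_of_pos_left _ hN1))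
        _ = B := by rw [hB]; ring
    omega
  -- the letter at position `a`
  let φ : Fin n → (Fin r × XL.Bvar (N * N) 24) ⊕ Bool := fun v =>
    if (v : ℕ) = N then .inr true
    else if h : m / 2 ≤ (v : ℕ) ∧ ((v : ℕ) - m / 2) / B < r then
      Sum.map (fun β => (⟨((v : ℕ) - m / 2) / B, h.2⟩, β)) id (pos N (((v : ℕ) - m / 2) % B))
    else .inr false
  have hφN : ∀ h : N < n, φ ⟨N, h⟩ = .inr true := fun h => if_pos rfl
  have hφb : ∀ (i : Fin r) (a : ℕ) (ha : a < B) (h : m / 2 + i * B + a < n),
      φ ⟨m / 2 + i * B + a, h⟩ = Sum.map (fun β => (i, β)) id (pos N a) := by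
    intro i a ha h
    have h1 : m / 2 + i * B + a - m / 2 = i * B + a := by omega
    have h2 : (i * B + a) / B = i := by
      rw [mul_comm, Nat.mul_add_div hB0, Nat.div_eq_of_lt ha, add_zero]
    have h3 : (i * B + a) % B = a := by
      rw [mul_comm, Nat.mul_add_mod, Nat.mod_eq_of_lt ha]
    show (if m / 2 + i * B + a = N then _ else _) = _
    rw [if_neg (by omega), dif_pos (by
      show m / 2 ≤ m / 2 + i * B + a ∧ (m / 2 + i * B + a - m / 2) / B < r
      rw [h1, h2]
      exact ⟨by omega, i.2⟩)]
    simp only [h1, h2, h3, Fin.eta]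
  have hφs : ∀ a (h : a < n), a ≠ N → a < m / 2 → φ ⟨a, h⟩ = .inr false := by
    intro a h h1 h2
    show (if a = N then _ else _) = _
    rw [if_neg h1, dif_neg (by rintro ⟨h3, -⟩; change m / 2 ≤ a at h3; omega)]
  have hφo : ∀ (i a : ℕ), r ≤ i → a < B → ∀ h : m / 2 + i * B + a < n,
      φ ⟨m / 2 + i * B + a, h⟩ = .inr false := by
    intro i a hi ha h
    have h1 : m / 2 + i * B + a - m / 2 = i * B + a := by omega
    have h2 : (i * B + a) / B = i := by
      rw [mul_comm, Nat.mul_add_div hB0, Nat.div_eq_of_lt ha, add_zero]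
    show (if m / 2 + i * B + a = N then _ else _) = _
    rw [if_neg (by omega), dif_neg (by
      rintro ⟨-, h3⟩
      change (m / 2 + i * B + a - m / 2) / B < r at h3
      rw [h1, h2] at h3
      omega)]
  have hpos : ∀ (i : Fin r), (i : ℕ) * B + B ≤ r * B := by
    intro i
    calc (i : ℕ) * B + B = (i + 1) * B := by ring
      _ ≤ r * B := Nat.mul_le_mul_right _ i.2
  have hlen : ∀ (i : Fin r) (a : ℕ), a < B → m / 2 + i * B + a < n := by
    intro i a ha
    have := hpos i
    omega
  refine ⟨φ, ?_, fun u => ?_⟩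
  · rintro ⟨i, β⟩
    obtain ⟨h4, h5⟩ := exists_pos β
    exact ⟨⟨_, hlen i _ h4⟩, by rw [hφb i _ h4, h5]; rfl⟩
  · rw [slang_iff, List.length_ofFn, ← hm]
    have hval : ∀ a (h : a < n), (List.ofFn fun v => (Sum.elim u id (φ v) : Bool)).getD a false
        = Sum.elim u id (φ ⟨a, h⟩) := fun a h => getD_ofFn _ h
    have hblock : ∀ (i : Fin r) (a : ℕ) (ha : a < B),
        (List.ofFn fun v => (Sum.elim u id (φ v) : Bool)).getD (m / 2 + i * B + a) false
          = word N (fun β => u (i, β)) a := by
      intro i a ha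
      rw [hval _ (hlen i a ha), hφb i a ha]
      unfold word
      rcases pos N a with β | c
      · rfl
      · rfl
    constructor
    · rintro ⟨w, N', hN', i, hi, ⟨h1, h2⟩, h3, h4⟩
      have e1 : N' = N := by
        by_contra hne
        have h5 : N' < n := by omega
        change (List.ofFn fun v => (Sum.elim u id (φ v) : Bool)).getD N' false = true at h2
        rw [hval _ h5, hφs N' h5 hne hN'] at h2
        exact absurd h2 (by simp)
      subst e1
      rw [← hB] at h3 h4
      by_cases hir : i < r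
      · refine ⟨⟨i, hir⟩, w, cert_mono (fun a ha hx => ?_) h4⟩
        have h5 := hblock ⟨i, hir⟩ a ha
        change (List.ofFn fun v => (Sum.elim u id (φ v) : Bool)).getD (m / 2 + i * B + a) false
          = _ at h5
        rw [← h5]
        exact hx
      · -- an empty block has no certificate
        exfalso
        obtain ⟨h5, h6, -⟩ := h4
        have h7 : ∀ a < B, w a = false := by
          intro a ha
          by_contra hw
          have h8 := h5 a ha (by simpa using hw)
          have h9 : (i + 1) * B = i * B + B := by ring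
          have h10 : m / 2 + i * B + a < n := by omega
          change (List.ofFn fun v => (Sum.elim u id (φ v) : Bool)).getD (m / 2 + i * B + a) false
            = true at h8
          rw [hval _ h10, hφo i a (by omega) ha] at h8
          exact absurd h8 (by simp)
        rw [Finset.sum_eq_zero fun a ha => by rw [h7 a (Finset.mem_range.1 ha)]; simp] at h6
        simp at h6
    · rintro ⟨i, w, h4⟩
      refine ⟨w, N, hNm, i, ?_, ⟨hN, ?_⟩, ?_, cert_mono (fun a ha hx => ?_) h4⟩
      · have h1 := hpos i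
        have h2 : (i : ℕ) ≤ i * B := Nat.le_mul_of_pos_right _ hB0
        omega
      · show (List.ofFn fun v => (Sum.elim u id (φ v) : Bool)).getD N false = true
        have h5 : N < n := by omega
        rw [hval _ h5, hφN h5]
        rfl
      · have h1 := hpos i
        have h2 : ((i : ℕ) + 1) * B = i * B + B := by ring
        rw [h2]
        omega
      · show (List.ofFn fun v => (Sum.elim u id (φ v) : Bool)).getD (m / 2 + i * B + a) false = true
        rw [hblock i a ha]
        exact hx

end Pool.Agent.NXL
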