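import Pool.Agent.NXL.Lang
import Pool.Agent.XL.Block

set_option autoImplicit false

/-!
# Certificates and inconsistency
-/

namespace Pool.Agent.NXL

open Finset

/-! ### Labels -/

/-- The label of a number. -/
def dec (l : ℕ) : Fin 8 → Fin 24 → ZMod 2 := fun c t => if l.testBit (24 * c + t) = true then 1 else 0

/-- The number of a label. -/
def lab (v : Fin 8 → Fin 24 → ZMod 2) : ℕ :=
  Nat.ofBits fun k : Fin 192 => decide (v ⟨k / 24, by have := k.2; omega⟩ ⟨k % 24, by omega⟩ = 1)

lemma lab_lt (v : Fin 8 → Fin 24 → ZMod 2) : lab v < KK := Nat.ofBits_lt_two_pow _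

lemma lab_testBit (v : Fin 8 → Fin 24 → ZMod 2) (c : Fin 8) (t : Fin 24) :
    (lab v).testBit (24 * c + t) = decide (v c t = 1) := by
  have hc := c.2
  have ht := t.2
  unfold lab
  rw [Nat.testBit_ofBits_lt _ _ (by omega : 24 * (c : ℕ) + t < 192)]
  have h1 : (24 * (c : ℕ) + t) / 24 = c := by omega
  have h2 : (24 * (c : ℕ) + t) % 24 = t := by omega
  simp only [h1, h2, Fin.eta]

lemma dec_lab (v : Fin 8 → Fin 24 → ZMod 2) : dec (lab v) = v := by
  funext c t
  unfold dec
  rw [lab_testBit]
  have h : ∀ a : ZMod 2, (if decide (a = 1) = true then (1 : ZMod 2) else 0) = a := by decide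
  exact h _

lemma eq_lab {l : ℕ} {v : Fin 8 → Fin 24 → ZMod 2} (hl : l < KK) (h : dec l = v) : l = lab v := by
  apply Nat.eq_of_testBit_eq
  intro k
  by_cases hk : k < 192
  · have h1 : 24 * (k / 24) + k % 24 = k := by omega
    have h2 := lab_testBit v ⟨k / 24, by omega⟩ ⟨k % 24, by omega⟩
    have h3 := congrFun (congrFun h ⟨k / 24, by omega⟩) ⟨k % 24, by omega⟩
    simp only [dec] at h2 h3
    rw [h1] at h2 h3
    rw [h2, ← h3]
    by_cases h4 : l.testBit k = true
    · rw [if_pos h4, h4]; rfl
    · rw [if_neg h4]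
      rw [Bool.not_eq_true] at h4
      rw [h4]; rfl
  · have h5 : ∀ a : ℕ, a < KK → a.testBit k = false := by
      intro a ha
      apply Nat.testBit_lt_two_pow
      refine lt_of_lt_of_le ha ?_
      exact Nat.pow_le_pow_right (by norm_num) (by omega)
    rw [h5 l hl, h5 _ (lab_lt v)]

/-! ### Positions -/

/-- The variable at a position. -/
def pos (N a : ℕ) : XL.Bvar (N * N) 24 ⊕ Bool :=
  if h : a < N * N * KK then Sum.inl (⟨a / KK, Nat.div_lt_of_lt_mul (by rwa [mul_comm] at h)⟩,
    dec (a % KK)) else Sum.inr false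

lemma pos_of_lt {N i l : ℕ} (hi : i < N * N) (hl : l < KK) :
    pos N (KK * i + l) = Sum.inl (⟨i, hi⟩, dec l) := by
  have h1 : KK * i + l < N * N * KK := by
    calc KK * i + l < KK * i + KK := by omega
      _ = (i + 1) * KK := by ring
      _ ≤ N * N * KK := Nat.mul_le_mul_right _ hi
  have h2 : (KK * i + l) / KK = i := by
    rw [Nat.mul_add_div KK_pos, Nat.div_eq_of_lt hl, add_zero]
  have h3 : (KK * i + l) % KK = l := by rw [Nat.mul_add_mod, Nat.mod_eq_of_lt hl]
  unfold pos
  rw [dif_pos h1]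
  simp only [h2, h3]

/-- The list of equations given by a word. -/
def word (N : ℕ) (u : XL.Bvar (N * N) 24 → Bool) (a : ℕ) : Bool := Sum.elim u id (pos N a)

lemma word_of_lt {N i l : ℕ} (u : XL.Bvar (N * N) 24 → Bool) (hi : i < N * N) (hl : l < KK) :
    word N u (KK * i + l) = u (⟨i, hi⟩, dec l) := by
  unfold word
  rw [pos_of_lt hi hl]
  rfl

lemma exists_pos {N : ℕ} (v : XL.Bvar (N * N) 24) :
    KK * (v.1 : ℕ) + lab v.2 < N * N * KK ∧ pos N (KK * v.1 + lab v.2) = Sum.inl v := by
  have hi := v.1.2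
  have hl := lab_lt v.2
  refine ⟨?_, ?_⟩
  · calc KK * (v.1 : ℕ) + lab v.2 < KK * v.1 + KK := by omega
      _ = (v.1 + 1) * KK := by ring
      _ ≤ N * N * KK := Nat.mul_le_mul_right _ hi
  · rw [pos_of_lt hi hl, dec_lab]

/-! ### Monotonicity -/

lemma cert_mono {N : ℕ} {x x' w : ℕ → Bool} (h : ∀ a < N * N * KK, x a = true → x' a = true)
    (hc : Cert N x w) : Cert N x' w :=
  ⟨fun a ha hw => h a ha (hc.1 a ha hw), hc.2⟩

lemma cert_congr {N : ℕ} {x w w' : ℕ → Bool} (h : ∀ a < N * N * KK, w a = w' a)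
    (hc : Cert N x w) : Cert N x w' := by
  refine ⟨fun a ha hw => hc.1 a ha (by rw [h a ha]; exact hw), ?_, fun g hg t ht => ?_⟩
  · refine Eq.trans (congrArg (· % 2) (Finset.sum_congr rfl fun a ha => ?_)) hc.2.1
    rw [h a (mem_range.mp ha)]
  · refine Eq.trans (congrArg (· % 2) (Finset.sum_congr rfl fun a ha => ?_)) (hc.2.2 g hg t ht)
    rw [h a (mem_range.mp ha)]

/-! ### Sums over positions -/

lemma sum_mul_range {A : Type*} [AddCommMonoid A] (f : ℕ → A) (M : ℕ) :
    ∑ a ∈ range (M * KK), f a = ∑ i ∈ range M, ∑ l ∈ range KK, f (KK * i + l) := by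
  induction M with
  | zero => simp
  | succ M ih =>
    rw [Nat.succ_mul, Finset.sum_range_add, ih, Finset.sum_range_succ, mul_comm M KK]

/-! ### Soundness -/

lemma cast_odd {n : ℕ} (h : n % 2 = 1) : ((n : ℕ) : ZMod 2) = 1 := by
  rw [← Nat.mod_add_div n 2, h]
  push_cast
  have : (2 : ZMod 2) = 0 := by decide
  rw [this]; ring

lemma cast_even {n : ℕ} (h : n % 2 = 0) : ((n : ℕ) : ZMod 2) = 0 := by
  rw [← Nat.mod_add_div n 2, h]
  push_cast
  have : (2 : ZMod 2) = 0 := by decide
  rw [this]; ring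

lemma mod_even {n : ℕ} (h : ((n : ℕ) : ZMod 2) = 0) : n % 2 = 0 := by
  rcases Nat.mod_two_eq_zero_or_one n with h1 | h1
  · exact h1
  · rw [cast_odd h1] at h
    exact absurd h (by decide)

/-- A certificate shows that the list has no solution. -/
theorem cert_sound {N : ℕ} {u : XL.Bvar (N * N) 24 → Bool} {w : ℕ → Bool}
    (hc : Cert N (word N u) w) : XL.incon (eF N) (fun _ => 1) u = true := by
  classical
  obtain ⟨h0, h1, h2⟩ := hc
  unfold XL.incon
  rw [decide_eq_true_eq]
  rintro ⟨z, hz⟩
  -- the value of the left hand side of an equation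
  set L : ℕ → ℕ → ZMod 2 := fun i l => ∑ c : Fin 8, ∑ t : Fin 24,
    (if l.testBit (24 * (c : ℕ) + t) = true then 1 else 0) *
      (if h : i < N * N then z (eF N ⟨i, h⟩ c) t else 0) with hL
  have e1 : ∀ a ∈ range (N * N * KK), (if w a = true then (1 : ZMod 2) else 0) *
      (1 + L (a / KK) (a % KK)) = 0 := by
    intro a ha
    rw [mem_range] at ha
    by_cases hw : w a = true
    · have hx := h0 a ha hw
      have hi : a / KK < N * N := Nat.div_lt_of_lt_mul (by rwa [mul_comm] at ha)
      have hl : a % KK < KK := Nat.mod_lt _ KK_pos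
      have ha' : KK * (a / KK) + a % KK = a := Nat.div_add_mod a KK
      rw [← ha', word_of_lt u hi hl] at hx
      have h3 := hz _ hx
      have h4 : (1 : ZMod 2) + L (a / KK) (a % KK) = 0 := by
        rw [← h3, hL]
        simp only [dec, dif_pos hi]
      rw [h4, mul_zero]
    · rw [if_neg hw, zero_mul]
  have e2 : ∑ a ∈ range (N * N * KK), (if w a = true then (1 : ZMod 2) else 0) *
      (1 + L (a / KK) (a % KK)) = 0 := Finset.sum_eq_zero e1
  simp only [mul_add, mul_one, Finset.sum_add_distrib] at e2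
  have e3 : ∑ a ∈ range (N * N * KK), (if w a = true then (1 : ZMod 2) else 0) = 1 := by
    refine Eq.trans ?_ (cast_odd h1)
    push_cast
    rfl
  have e4 : ∑ a ∈ range (N * N * KK), (if w a = true then (1 : ZMod 2) else 0) *
      L (a / KK) (a % KK) = 0 := by
    have e5 : ∀ a ∈ range (N * N * KK), (if w a = true then (1 : ZMod 2) else 0) *
        L (a / KK) (a % KK) = ∑ g : Fin (4 * (N * N)), ∑ t : Fin 24,
          ((∑ c ∈ range 8, if w a = true ∧ eN N (a / KK) c = g ∧
            (a % KK).testBit (24 * c + t) = true then 1 else 0 : ℕ) : ZMod 2) * z g t := by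
      intro a ha
      rw [mem_range] at ha
      have hi : a / KK < N * N := Nat.div_lt_of_lt_mul (by rwa [mul_comm] at ha)
      by_cases hw : w a = true
      · rw [if_pos hw, one_mul, hL]
        simp only [dif_pos hi, hw, true_and]
        have e6 : ∀ (g : Fin (4 * (N * N))) (t : Fin 24),
            ((∑ c ∈ range 8, if eN N (a / KK) c = g ∧
            (a % KK).testBit (24 * c + t) = true then 1 else 0 : ℕ) : ZMod 2) * z g t =
            ∑ c : Fin 8, if eF N ⟨a / KK, hi⟩ c = g then
              (if (a % KK).testBit (24 * (c : ℕ) + t) = true then 1 else 0) * z g t else 0 := by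
          intro g t
          push_cast
          rw [Finset.sum_mul, Finset.sum_range]
          refine Finset.sum_congr rfl fun c _ => ?_
          have h5 : (eN N (a / KK) c = g) ↔ (eF N ⟨a / KK, hi⟩ c = g) := by
            rw [Fin.ext_iff]; rfl
          by_cases h6 : eF N ⟨a / KK, hi⟩ c = g
          · rw [if_pos h6]
            simp only [h5.mpr h6, true_and]
          · rw [if_neg h6, if_neg (fun h7 => h6 (h5.mp h7.1)), zero_mul]
        simp only [e6]
        have e7 : ∀ (c : Fin 8) (t : Fin 24),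
            (if (a % KK).testBit (24 * (c : ℕ) + t) = true then (1 : ZMod 2) else 0) *
              z (eF N ⟨a / KK, hi⟩ c) t = ∑ g : Fin (4 * (N * N)), if eF N ⟨a / KK, hi⟩ c = g then
              (if (a % KK).testBit (24 * (c : ℕ) + t) = true then 1 else 0) * z g t else 0 := by
          intro c t
          rw [Finset.sum_ite_eq, if_pos (Finset.mem_univ _)]
        simp only [e7]
        refine Finset.sum_comm.trans ?_
        refine Eq.trans (Finset.sum_congr rfl fun t _ => Finset.sum_comm) ?_
        exact Finset.sum_comm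
      · rw [if_neg hw, zero_mul]
        symm
        refine Finset.sum_eq_zero fun g _ => Finset.sum_eq_zero fun t _ => ?_
        simp [hw]
    rw [Finset.sum_congr rfl e5, Finset.sum_comm]
    refine Finset.sum_eq_zero fun g _ => ?_
    rw [Finset.sum_comm]
    refine Finset.sum_eq_zero fun t _ => ?_
    rw [← Finset.sum_mul, ← Nat.cast_sum, cast_even (h2 g g.2 t t.2), zero_mul]
  rw [e3, e4, add_zero] at e2
  exact absurd e2 (by decide)

end Pool.Agent.NXL
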