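import Pool.Agent.XL.Block

/-!
# The lower bound for decompositions of the lifted system, for weaker expansion
-/

namespace Pool.Agent.NXL

open Finset Pool.Agent.XL

variable {M m h d : ℕ}

/-- Weak expansion up to `2 d` equations. -/
def ExpandH (d : ℕ) (e : Fin M → Fin 8 → Fin m) : Prop :=
  ∀ T : Finset (Fin M), T.card ≤ 2 * d → T.card ≤ 2 * (supp e T).card

theorem le_suppH {e : Fin M → Fin 8 → Fin m} (hE : ExpandH d e) {T : Finset (Fin M)} {i : Fin M}
    (hT : T ∈ TT d M) (hT' : symmDiff T {i} ∉ TT d M) : d ≤ (supp e T).card := by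
  simp only [TT, Finset.mem_filter, Finset.mem_univ, true_and] at hT hT'
  have h2 := card_symmDiff_single T i
  have h3 := hE T hT
  omega

theorem card_gensH {F : Type*} [Field F] {e : Fin M → Fin 8 → Fin m} (hE : ExpandH d e)
    (R : Finset (Fin m → Fin h → ZMod 2)) {S : ℕ} (lab : Fin S → Fin M)
    (c : (Fin m → Fin h → ZMod 2) → Fin S → F) :
    (gens d e R lab c).card ≤ S * ((TT d M).card * 2 ^ (h * (m - d))) := by
  classical
  unfold gens
  refine (Finset.card_biUnion_le_card_mul _ _ ((TT d M).card * 2 ^ (h * (m - d))) ?_).trans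
    (le_of_eq (by rw [Finset.card_univ, Fintype.card_fin]))
  intro ρ _
  refine (Finset.card_biUnion_le_card_mul _ _ (2 ^ (h * (m - d))) ?_).trans ?_
  · intro T hT
    rw [Finset.mem_filter] at hT
    have h1 := le_suppH hE hT.1 hT.2
    refine Finset.card_image_le.trans ?_
    rw [Finset.card_univ, Fintype.card_fun, Fintype.card_fun, ZMod.card, Fintype.card_fin,
      ← pow_mul]
    apply Nat.pow_le_pow_right (by norm_num)
    apply Nat.mul_le_mul_left
    have h2 : Fintype.card {j // j ∉ supp e T} = m - (supp e T).card := by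
      rw [Fintype.card_subtype_compl, Fintype.card_fin, Fintype.card_coe]
    rw [h2]
    omega
  · exact Nat.mul_le_mul_right _ (Finset.card_le_card (Finset.filter_subset _ _))

/-- The matrix times the characters is a multiple of the identity. -/
theorem mat_mulH (F : Type*) [Field F] {e : Fin M → Fin 8 → Fin m} (hE : ExpandH d e)
    (b : Fin M → ZMod 2) (W V : Fin m → Fin h → ZMod 2) (hV : ∀ j, V j ≠ 0) :
    ∑ x : Fin m → Fin h → ZMod 2, mat F d e b W x * chi F (∑ j, ip V x j) =
      if W = V then (2 : F) ^ (h * m) else 0 := by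
  obtain ⟨U, hU⟩ : ∃ U : Finset (Fin M) → Fin m → Fin h → ZMod 2, U = fun T j t =>
    V j t + if j ∈ supp e T then 0 else W j t := ⟨_, rfl⟩
  have h1 : ∀ (T : Finset (Fin M)) (x : Fin m → Fin h → ZMod 2),
      chi F (∑ j, ip W x j) * chi F (∑ i ∈ T, viol e b (ip W x) i) * chi F (∑ j, ip V x j) =
        chi F (∑ i ∈ T, b i) * chi F (∑ j, ip (U T) x j) := by
    intro T x
    rw [← chi_add, ← chi_add, ← chi_add, sum_viol]
    congr 1
    have h2 : ∑ j, ip (U T) x j =
        ∑ j, ip V x j + (∑ j, ip W x j + ∑ j ∈ supp e T, ip W x j) := by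
      have h3 : ∑ j ∈ supp e T, ip W x j = ∑ j, if j ∈ supp e T then ip W x j else 0 := by
        rw [← sum_filter]
        congr 1
        ext j
        simp
      rw [h3, ← sum_add_distrib, ← sum_add_distrib]
      refine sum_congr rfl fun j _ => ?_
      rw [hU]
      by_cases hj : j ∈ supp e T
      · simp only [ip, if_pos hj, add_zero]
        have h4 : ∀ a c : ZMod 2, a = a + (c + c) := by decide
        exact h4 _ _
      · simp only [ip, if_neg hj, add_zero, add_mul]
        exact sum_add_distrib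
    rw [h2]
    ring
  have h2 : ∀ x : Fin m → Fin h → ZMod 2, mat F d e b W x * chi F (∑ j, ip V x j) =
      ∑ T ∈ TT d M, chi F (∑ i ∈ T, b i) * chi F (∑ j, ip (U T) x j) := by
    intro x
    rw [mat, sum_mul]
    exact sum_congr rfl fun T _ => h1 T x
  rw [sum_congr rfl fun x _ => h2 x, sum_comm]
  have h3 : ∀ T ∈ TT d M, ∑ x : Fin m → Fin h → ZMod 2,
      chi F (∑ i ∈ T, b i) * chi F (∑ j, ip (U T) x j) =
      chi F (∑ i ∈ T, b i) * if U T = 0 then (2 : F) ^ (h * m) else 0 := by
    intro T _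
    rw [← mul_sum, sum_chi]
  rw [sum_congr rfl h3]
  have hemp : supp e ∅ = ∅ := by
    rw [supp, filter_eq_empty_iff]
    intro j _ h
    exact h (by rw [par, sum_empty])
  have h4 : ∀ T ∈ TT d M, T ≠ ∅ →
      (chi F (∑ i ∈ T, b i) * if U T = 0 then (2 : F) ^ (h * m) else 0) = 0 := by
    intro T hT hne
    rw [if_neg, mul_zero]
    intro h0
    have h5 : (supp e T).Nonempty := by
      rw [← card_pos]
      have h6 := hE T (mem_filter.1 hT).2
      have h7 : 0 < T.card := card_pos.2 (nonempty_iff_ne_empty.2 hne)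
      omega
    obtain ⟨j, hj⟩ := h5
    apply hV j
    ext t
    have h6 := congrFun (congrFun h0 j) t
    rw [hU] at h6
    simp only [if_pos hj, add_zero] at h6
    exact h6
  have hmem : ∅ ∈ TT d M := by
    rw [TT, mem_filter]
    simp
  rw [sum_eq_single_of_mem ∅ hmem h4, sum_empty, chi_zero, one_mul]
  have h5 : U ∅ = 0 ↔ W = V := by
    have h8 : U ∅ = fun j t => V j t + W j t := by
      rw [hU]
      ext j t
      simp only [hemp, notMem_empty, if_false]
    rw [h8]
    have h6 : ∀ a c : ZMod 2, a + c = 0 ↔ c = a := by decide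
    constructor
    · intro h
      ext j t
      have h7 : V j t + W j t = 0 := congrFun (congrFun h j) t
      exact (h6 (V j t) (W j t)).1 h7
    · intro h
      ext j t
      exact (h6 (V j t) (W j t)).2 (by rw [h])
  by_cases hWV : W = V
  · rw [if_pos hWV, if_pos (h5.2 hWV)]
  · rw [if_neg hWV, if_neg (fun h => hWV (h5.1 h))]

/-- **The core**: the number of positive inputs is at most the number of generators. -/
theorem core_ofH {F : Type*} [Field F] (h2 : (2 : F) ≠ 0) {e : Fin M → Fin 8 → Fin m}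
    (hE : ExpandH d e) (b : Fin M → ZMod 2) (R : Finset (Fin m → Fin h → ZMod 2))
    (hR : ∀ W ∈ R, ∀ j, W j ≠ 0)
    {S : ℕ} (lab : Fin S → Fin M) (c p : (Fin m → Fin h → ZMod 2) → Fin S → F)
    (h1 : ∀ W ∈ R, ∀ x, ∑ ρ, c W ρ * p x ρ = 1)
    (hv : ∀ W ∈ R, ∀ x ρ, c W ρ * p x ρ ≠ 0 → viol e b (ip W x) (lab ρ) ≠ 0) :
    R.card ≤ S * ((TT d M).card * 2 ^ (h * (m - d))) := by
  classical
  have hmul : ∀ W ∈ R, ∀ V ∈ R, ∑ x : Fin m → Fin h → ZMod 2,
      mat F d e b W x * chi F (∑ j, ip V x j) = if W = V then (2 : F) ^ (h * m) else 0 :=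
    fun W _ V hV => mat_mulH F hE b W V (hR V hV)
  have hcol := column_mem (d := d) b R lab c p h1 hv
  set P := Submodule.span F ((gens d e R lab c : Finset (↥R → F)) : Set (↥R → F)) with hP
  have hne : (2 : F) ^ (h * m) ≠ 0 := pow_ne_zero _ h2
  have hsingle : ∀ V : ↥R, (Pi.single V (1 : F) : ↥R → F) ∈ P := by
    intro V
    have e1 : ((2 : F) ^ (h * m)) • (Pi.single V (1 : F) : ↥R → F) =
        ∑ x : Fin m → Fin h → ZMod 2, chi F (∑ j, ip V.1 x j) •
          (fun W : ↥R => mat F d e b W.1 x) := by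
      funext W
      rw [Finset.sum_apply]
      simp only [Pi.smul_apply, smul_eq_mul]
      have e2 := hmul W.1 W.2 V.1 V.2
      simp only [mul_comm (chi F _)]
      rw [e2]
      by_cases hWV : W = V
      · subst hWV; simp
      · have hWV' : W.1 ≠ V.1 := fun hh => hWV (Subtype.ext hh)
        rw [Pi.single_eq_of_ne hWV, if_neg hWV', mul_zero]
    have e3 : ((2 : F) ^ (h * m)) • (Pi.single V (1 : F) : ↥R → F) ∈ P := by
      rw [e1]
      exact Submodule.sum_mem _ fun x _ => Submodule.smul_mem _ _ (hcol x)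
    exact (Submodule.smul_mem_iff _ hne).1 e3
  have htop : P = ⊤ := by
    rw [Submodule.eq_top_iff']
    intro f
    have e4 : f = ∑ V : ↥R, f V • (Pi.single V (1 : F) : ↥R → F) := by
      funext W
      rw [Finset.sum_apply, Finset.sum_eq_single W]
      · simp
      · intro V _ hV
        simp [Pi.single_eq_of_ne (Ne.symm hV)]
      · intro hcon
        exact absurd (Finset.mem_univ _) hcon
    rw [e4]
    exact Submodule.sum_mem _ fun V _ => Submodule.smul_mem _ _ (hsingle V)
  have hfin : Module.finrank F P = R.card := by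
    rw [htop, finrank_top, Module.finrank_fintype_fun_eq_card, Fintype.card_coe]
  calc R.card = Module.finrank F P := hfin.symm
    _ ≤ (gens d e R lab c).card := finrank_span_finset_le_card _
    _ ≤ _ := card_gensH hE R lab c

/-- **The lower bound** for decompositions on a set of positive inputs. -/
theorem lower_onH (F : Type*) [Field F] (h2 : (2 : F) ≠ 0) {e : Fin M → Fin 8 → Fin m}
    (hE : ExpandH d e) (b : Fin M → ZMod 2) (hM : 0 < M) (R : Finset (Fin m → Fin h → ZMod 2))
    (hR : ∀ W ∈ R, ∀ j, W j ≠ 0) {S : ℕ}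
    (label : Fin S → Option (Fin M × (Fin 8 → Fin h → ZMod 2)))
    (u v : Fin S → (Fin m → Fin h → ZMod 2) → F)
    (hu : ∀ i, ∀ W ∈ R, u i W ≠ 0 → ∀ β ∈ label i, PW e W β = true)
    (hv : ∀ i x, v i x ≠ 0 → ∃ β ∈ label i, negIn e b x β = false)
    (h1 : ∀ W ∈ R, ∀ x, ∑ i, u i W * v i x = 1) :
    R.card ≤ S * ((TT d M).card * 2 ^ (h * (m - d))) := by
  refine core_ofH h2 hE b R hR
    (fun i => match label i with
      | some β => β.1
      | none => ⟨0, hM⟩) (fun W i => u i W) (fun x i => v i x) h1 ?_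
  intro W hW x i hne
  have hu' : u i W ≠ 0 := left_ne_zero_of_mul hne
  have hv' : v i x ≠ 0 := right_ne_zero_of_mul hne
  obtain ⟨β, hβ, hn⟩ := hv i x hv'
  have hp := hu i W hW hu' β hβ
  have hl : label i = some β := hβ
  rw [hl]
  exact viol_of hp hn

/-- A function below `incon` with a small decomposition accepts few positive inputs. -/
theorem few_of_decompH (F : Type) [Field F] (h2 : (2 : F) ≠ 0) {e : Fin M → Fin 8 → Fin m}
    (hE : ExpandH d e) (b : Fin M → ZMod 2) (hM : 0 < M) {S : ℕ} {G : (Bvar M h → Bool) → Bool}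
    (hG : Decomp F S G) (hle : ∀ u, G u = true → incon e b u = true) :
    (univ.filter fun W : Fin m → Fin h → ZMod 2 => (∀ j, W j ≠ 0) ∧ G (PW e W) = true).card ≤
      S * ((TT d M).card * 2 ^ (h * (m - d))) := by
  classical
  obtain ⟨label, u, v, hu, hv, h1⟩ := hG
  have hneg : ∀ x, G (negIn e b x) = false := by
    intro x
    by_contra hcon
    have h3 := hle _ (by simpa using hcon)
    rw [incon_negIn] at h3
    exact absurd h3 (by simp)
  refine lower_onH F h2 hE b hM _ ?_ label (fun i W => u i (PW e W))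
    (fun i x => v i (negIn e b x)) ?_ ?_ ?_
  · intro W hW
    exact (Finset.mem_filter.1 hW).2.1
  · intro i W hW hne β hβ
    exact hu i _ (Finset.mem_filter.1 hW).2.2 hne β hβ
  · intro i x hne
    exact hv i _ (hneg x) hne
  · intro W hW x
    exact h1 _ _ (Finset.mem_filter.1 hW).2.2 (hneg x)

theorem num_auxH (d n : ℕ) (h1 : d ≤ n) (h2 : n ≤ 8 * d) :
    2 ^ n * (2 ^ n * 2 ^ (24 * (4 * n - d))) ≤ (2 ^ 24 - 1) ^ (4 * n) := by
  have key : 2 ^ 95 ≤ (2 ^ 24 - 1) ^ 4 := by norm_num
  have h3 : 2 ^ (95 * n) ≤ (2 ^ 24 - 1) ^ (4 * n) := by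
    rw [pow_mul, pow_mul]
    exact Nat.pow_le_pow_left key n
  refine le_trans ?_ h3
  rw [← pow_add, ← pow_add]
  exact Nat.pow_le_pow_right (by norm_num) (by omega)

/-- The number of sets of equations is at most `2 ^ M`. -/
theorem card_TT_le (d M : ℕ) : (TT d M).card ≤ 2 ^ M := by
  calc (TT d M).card ≤ (univ : Finset (Finset (Fin M))).card :=
        Finset.card_le_card (Finset.filter_subset _ _)
    _ = 2 ^ M := by simp

/-- Strongly exponential form: `n` equations with `4 n` unknowns. -/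
theorem few_numH (F : Type) [Field F] (h2 : (2 : F) ≠ 0) {d n : ℕ}
    {e : Fin n → Fin 8 → Fin (4 * n)} (hE : ExpandH d e) (b : Fin n → ZMod 2)
    (hd : 1 ≤ d) (hd1 : d ≤ n) (hd2 : n ≤ 8 * d) {S : ℕ} {G : (Bvar n 24 → Bool) → Bool}
    (hG : Decomp F S G) (hle : ∀ u, G u = true → incon e b u = true) :
    2 ^ n * (univ.filter fun W : Fin (4 * n) → Fin 24 → ZMod 2 =>
      (∀ j, W j ≠ 0) ∧ G (PW e W) = true).card ≤ S * (2 ^ 24 - 1) ^ (4 * n) := by
  have h3 := few_of_decompH F h2 hE b (by omega) hG hle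
  have h4 := card_TT_le d n
  calc 2 ^ n * (univ.filter fun W : Fin (4 * n) → Fin 24 → ZMod 2 =>
      (∀ j, W j ≠ 0) ∧ G (PW e W) = true).card
      ≤ 2 ^ n * (S * (2 ^ n * 2 ^ (24 * (4 * n - d)))) := by
        apply Nat.mul_le_mul_left
        exact h3.trans (Nat.mul_le_mul_left _ (Nat.mul_le_mul_right _ h4))
    _ = S * (2 ^ n * (2 ^ n * 2 ^ (24 * (4 * n - d)))) := by ring
    _ ≤ S * (2 ^ 24 - 1) ^ (4 * n) := Nat.mul_le_mul_left _ (num_auxH d n hd1 hd2)

end Pool.Agent.NXL
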