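import Pool.Agent.NXL.Marg

set_option autoImplicit false

/-!
# The weighted inequality of the Margulis graph (Gabber, Galil; Jimbo, Maruoka)
-/

namespace Pool.Agent.NXL

open Finset
open scoped BigOperators

/-- The absolute value of the representative nearest to zero. -/
def nm {N : ℕ} (a : ZMod N) : ℕ := a.valMinAbs.natAbs

/-- The weights. -/
noncomputable def gm (a b : ℕ) : ℝ := if b < a then 5 / 4 else if a < b then 4 / 5 else 1

theorem gm_nonneg (a b : ℕ) : 0 ≤ gm a b := by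
  unfold gm; split_ifs <;> norm_num

theorem gm_le (a b : ℕ) : gm a b ≤ 5 / 4 := by
  unfold gm; split_ifs <;> norm_num

theorem gm_self (a : ℕ) : gm a a = 1 := by
  unfold gm; simp

theorem gm_lt {a b : ℕ} (h : a < b) : gm a b = 4 / 5 := by
  unfold gm; rw [if_neg (by omega), if_pos h]

theorem two_mul_le_gm (m n : ℕ) (a b : ℝ) : 2 * a * b ≤ gm m n * a ^ 2 + gm n m * b ^ 2 := by
  rcases lt_trichotomy m n with h | h | h
  · rw [gm_lt h]
    have h2 : gm n m = 5 / 4 := by unfold gm; rw [if_pos h]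
    rw [h2]
    nlinarith [sq_nonneg (4 * a - 5 * b)]
  · rw [h, gm_self]
    nlinarith [sq_nonneg (a - b)]
  · rw [gm_lt h]
    have h2 : gm m n = 5 / 4 := by unfold gm; rw [if_pos h]
    rw [h2]
    nlinarith [sq_nonneg (5 * a - 4 * b)]

theorem lt_nm {N : ℕ} [NeZero N] (t : ℤ) (B : ℕ) (h1 : B < t.natAbs) (h2 : t.natAbs + B < N) :
    B < nm (t : ZMod N) := by
  by_contra h
  have h3 : (t : ZMod N).valMinAbs.natAbs ≤ B := not_lt.1 h
  obtain ⟨s, hs⟩ : ∃ s, s = (t : ZMod N).valMinAbs := ⟨_, rfl⟩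
  rw [← hs] at h3
  have h4 : (N : ℤ) ∣ t - s := by
    rw [← ZMod.intCast_zmod_eq_zero_iff_dvd, Int.cast_sub, hs, ZMod.coe_valMinAbs, sub_self]
  have h5 : t - s = 0 := by
    apply Int.eq_zero_of_abs_lt_dvd h4
    rw [abs_lt]
    omega
  omega

variable {N : ℕ} [NeZero N]

omit [NeZero N] in
theorem sub_two_mul (a b : ZMod N) :
    b - 2 * a = ((b.valMinAbs - 2 * a.valMinAbs : ℤ) : ZMod N) := by
  push_cast
  rfl

omit [NeZero N] in
theorem add_two_mul (a b : ZMod N) :
    b + 2 * a = ((b.valMinAbs + 2 * a.valMinAbs : ℤ) : ZMod N) := by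
  push_cast
  rfl

theorem pair_lt {a b : ZMod N} (h : nm b < nm a) (h2 : 2 * nm a + 2 * nm b < N) :
    gm (nm b) (nm (b - 2 * a)) + gm (nm b) (nm (b + 2 * a)) ≤ 8 / 5 := by
  have e1 : nm b < nm (b - 2 * a) := by
    rw [sub_two_mul]
    apply lt_nm <;> unfold nm at * <;> omega
  have e2 : nm b < nm (b + 2 * a) := by
    rw [add_two_mul]
    apply lt_nm <;> unfold nm at * <;> omega
  rw [gm_lt e1, gm_lt e2]
  norm_num

theorem one_lt {a b : ZMod N} (h : 0 < nm a) (h2 : 2 * nm a + 2 * nm b < N) :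
    nm b < nm (b - 2 * a) ∨ nm b < nm (b + 2 * a) := by
  by_cases hs : (b.valMinAbs - 2 * a.valMinAbs).natAbs = nm b + 2 * nm a
  · left
    rw [sub_two_mul]
    apply lt_nm <;> unfold nm at * <;> omega
  · right
    rw [add_two_mul]
    apply lt_nm <;> unfold nm at * <;> omega

theorem pair_pos {a b : ZMod N} (h : 0 < nm a) (h2 : 2 * nm a + 2 * nm b < N) :
    gm (nm b) (nm (b - 2 * a)) + gm (nm b) (nm (b + 2 * a)) ≤ 41 / 20 := by
  have e1 := gm_le (nm b) (nm (b - 2 * a))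
  have e2 := gm_le (nm b) (nm (b + 2 * a))
  rcases one_lt h h2 with h3 | h3
  · rw [gm_lt h3]; linarith
  · rw [gm_lt h3]; linarith

omit [NeZero N] in
theorem pair_zero {a b : ZMod N} (h : nm a = 0) :
    gm (nm b) (nm (b - 2 * a)) + gm (nm b) (nm (b + 2 * a)) = 2 := by
  have h1 : a = 0 := by
    have : a.valMinAbs = 0 := by unfold nm at h; omega
    exact (ZMod.valMinAbs_eq_zero a).1 this
  rw [h1, mul_zero, sub_zero, add_zero, gm_self]
  norm_num

theorem pair_eq {a b : ZMod N} (h : nm b = nm a) (h0 : 0 < nm a) (h2 : 2 * nm a + 2 * nm b < N) :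
    gm (nm b) (nm (b - 2 * a)) + gm (nm b) (nm (b + 2 * a)) ≤ 9 / 5 := by
  have h3 : b = a ∨ b = -a := ZMod.natAbs_valMinAbs_eq_natAbs_valMinAbs.1 h
  have h4 : nm (-a) = nm a := ZMod.natAbs_valMinAbs_neg a
  have e3 : nm (b - 2 * a) = nm b ∨ nm (b + 2 * a) = nm b := by
    rcases h3 with h3 | h3
    · left
      rw [h3, show a - 2 * a = -a by ring, h4]
    · right
      rw [h3, show -a + 2 * a = a by ring, h4]
  rcases one_lt h0 h2 with h5 | h5
  · rcases e3 with h6 | h6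
    · omega
    · rw [gm_lt h5, h6, gm_self]; norm_num
  · rcases e3 with h6 | h6
    · rw [gm_lt h5, h6, gm_self]; norm_num
    · omega

theorem cos_val (a : ZMod N) :
    |Real.cos (Real.pi * (a.val : ℝ) / N)| = Real.cos (Real.pi * (nm a : ℝ) / N) := by
  have hN : (0 : ℝ) < N := by exact_mod_cast NeZero.pos N
  have h1 : nm a = min a.val (N - a.val) := ZMod.valMinAbs_natAbs_eq_min a
  have h2 : a.val < N := ZMod.val_lt a
  have h5 : (nm a : ℝ) ≤ N / 2 := by
    have : 2 * nm a ≤ N := by omega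
    have : (2 * nm a : ℝ) ≤ N := by exact_mod_cast this
    linarith
  have h6 : 0 ≤ Real.cos (Real.pi * (nm a : ℝ) / N) := by
    apply Real.cos_nonneg_of_mem_Icc
    constructor
    · have : 0 ≤ Real.pi * (nm a : ℝ) / N := by positivity
      linarith [Real.pi_pos]
    · rw [div_le_iff₀ hN]
      nlinarith [Real.pi_pos]
  rcases le_total a.val (N - a.val) with h3 | h3
  · have h4 : nm a = a.val := by omega
    rw [← h4]
    exact abs_of_nonneg h6
  · have h4 : nm a = N - a.val := by omega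
    have h7 : Real.pi * (a.val : ℝ) / N = Real.pi - Real.pi * (nm a : ℝ) / N := by
      rw [h4, Nat.cast_sub h2.le]
      field_simp
      ring
    rw [h7, Real.cos_pi_sub, abs_neg]
    exact abs_of_nonneg h6

theorem cos_add_le {a b : ZMod N} (h : N ≤ 2 * nm a + 2 * nm b) :
    |Real.cos (Real.pi * (a.val : ℝ) / N)| + |Real.cos (Real.pi * (b.val : ℝ) / N)| ≤
      146 / 100 := by
  have hN : (0 : ℝ) < N := by exact_mod_cast NeZero.pos N
  rw [cos_val, cos_val]
  have hle : ∀ c : ZMod N, Real.pi * (nm c : ℝ) / N ≤ Real.pi / 2 := by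
    intro c
    have h1 : nm c = min c.val (N - c.val) := ZMod.valMinAbs_natAbs_eq_min c
    have h2 : c.val < N := ZMod.val_lt c
    have : 2 * nm c ≤ N := by omega
    have h3 : (2 * nm c : ℝ) ≤ N := by exact_mod_cast this
    rw [div_le_iff₀ hN]
    nlinarith [Real.pi_pos]
  have hge : ∀ c : ZMod N, 0 ≤ Real.pi * (nm c : ℝ) / N := fun c => by positivity
  set x := Real.pi * (nm a : ℝ) / N with hx
  set y := Real.pi * (nm b : ℝ) / N with hy
  have hx1 := hle a
  have hy1 := hle b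
  have hx0 := hge a
  have hy0 := hge b
  rw [← hx] at hx1 hx0
  rw [← hy] at hy1 hy0
  have hsum : Real.pi / 2 ≤ x + y := by
    have h1 : (N : ℝ) ≤ 2 * nm a + 2 * nm b := by exact_mod_cast h
    rw [hx, hy, ← add_div, le_div_iff₀ hN]
    nlinarith [Real.pi_pos]
  have h2 : Real.cos y ≤ Real.sin x := by
    rw [← Real.cos_pi_div_two_sub]
    apply Real.cos_le_cos_of_nonneg_of_le_pi
    · linarith
    · linarith [Real.pi_pos]
    · linarith
  have h3 := Real.sin_sq_add_cos_sq x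
  nlinarith [sq_nonneg (Real.cos x - Real.sin x), sq_nonneg (Real.cos x + Real.sin x - 146 / 100)]

/-- The coefficient of `G v ^ 2`. -/
theorem coeff_le (v : Vt N) (hv : v ≠ 0) :
    |Real.cos (Real.pi * (v.1.val : ℝ) / N)| *
        (gm (nm v.2) (nm (v.2 - 2 * v.1)) + gm (nm v.2) (nm (v.2 + 2 * v.1))) +
      |Real.cos (Real.pi * (v.2.val : ℝ) / N)| *
        (gm (nm v.1) (nm (v.1 - 2 * v.2)) + gm (nm v.1) (nm (v.1 + 2 * v.2))) ≤ 73 / 20 := by
  obtain ⟨a, b⟩ := v
  simp only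
  set c1 := |Real.cos (Real.pi * (a.val : ℝ) / N)| with hc1
  set c2 := |Real.cos (Real.pi * (b.val : ℝ) / N)| with hc2
  have h10 : 0 ≤ c1 := abs_nonneg _
  have h20 : 0 ≤ c2 := abs_nonneg _
  have h11 : c1 ≤ 1 := Real.abs_cos_le_one _
  have h21 : c2 ≤ 1 := Real.abs_cos_le_one _
  have g1 := gm_le (nm b) (nm (b - 2 * a))
  have g2 := gm_le (nm b) (nm (b + 2 * a))
  have g3 := gm_le (nm a) (nm (a - 2 * b))
  have g4 := gm_le (nm a) (nm (a + 2 * b))
  have p1 := gm_nonneg (nm b) (nm (b - 2 * a))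
  have p2 := gm_nonneg (nm b) (nm (b + 2 * a))
  have p3 := gm_nonneg (nm a) (nm (a - 2 * b))
  have p4 := gm_nonneg (nm a) (nm (a + 2 * b))
  by_cases hbig : N ≤ 2 * nm a + 2 * nm b
  · have h3 := cos_add_le hbig
    rw [← hc1, ← hc2] at h3
    nlinarith
  · have hsm : 2 * nm a + 2 * nm b < N := not_le.1 hbig
    have hsm' : 2 * nm b + 2 * nm a < N := by omega
    suffices hs : gm (nm b) (nm (b - 2 * a)) + gm (nm b) (nm (b + 2 * a)) +
        (gm (nm a) (nm (a - 2 * b)) + gm (nm a) (nm (a + 2 * b))) ≤ 73 / 20 by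
      nlinarith
    have hne : 0 < nm a ∨ 0 < nm b := by
      by_contra hcon
      push Not at hcon
      apply hv
      have h1 : a.valMinAbs = 0 := by unfold nm at hcon; omega
      have h2 : b.valMinAbs = 0 := by unfold nm at hcon; omega
      rw [(ZMod.valMinAbs_eq_zero a).1 h1, (ZMod.valMinAbs_eq_zero b).1 h2]
      rfl
    rcases lt_trichotomy (nm a) (nm b) with h | h | h
    · have q1 := pair_lt (a := b) (b := a) h hsm'
      rcases Nat.eq_zero_or_pos (nm a) with h0 | h0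
      · have q2 := pair_zero (a := a) (b := b) h0
        linarith
      · have q2 := pair_pos (a := a) (b := b) h0 hsm
        linarith
    · have h0 : 0 < nm a := by omega
      have q1 := pair_eq (a := a) (b := b) h.symm h0 hsm
      have q2 := pair_eq (a := b) (b := a) h (by omega) hsm'
      linarith
    · have q1 := pair_lt (a := a) (b := b) h hsm
      rcases Nat.eq_zero_or_pos (nm b) with h0 | h0
      · have q2 := pair_zero (a := b) (b := a) h0
        linarith
      · have q2 := pair_pos (a := b) (b := a) h0 hsm'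
        linarith

/-- The shear of the second coordinate. -/
def shear2 : Vt N ≃ Vt N :=
  ⟨fun u => (u.1, u.2 - 2 * u.1), fun u => (u.1, u.2 + 2 * u.1),
    fun u => by ext <;> simp, fun u => by ext <;> simp⟩

/-- The shear of the first coordinate. -/
def shear1 : Vt N ≃ Vt N :=
  ⟨fun u => (u.1 - 2 * u.2, u.2), fun u => (u.1 + 2 * u.2, u.2),
    fun u => by ext <;> simp, fun u => by ext <;> simp⟩

/-- The weighted inequality. -/
theorem diamond (N : ℕ) [NeZero N] (_hN : Odd N) (G : Vt N → ℝ) (_h0 : ∀ u, 0 ≤ G u)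
    (hz : G 0 = 0) :
    ∑ u : Vt N, G u * (2 * |Real.cos (Real.pi * (u.1.val : ℝ) / N)| * G (u.1, u.2 - 2 * u.1)
      + 2 * |Real.cos (Real.pi * (u.2.val : ℝ) / N)| * G (u.1 - 2 * u.2, u.2))
      ≤ 73 / 20 * ∑ u, G u ^ 2 := by
  classical
  obtain ⟨c, hc⟩ : ∃ c : ZMod N → ℝ, c = fun a => |Real.cos (Real.pi * (a.val : ℝ) / N)| :=
    ⟨_, rfl⟩
  have hcv : ∀ a : ZMod N, |Real.cos (Real.pi * (a.val : ℝ) / N)| = c a := fun a => by rw [hc]
  have hc0 : ∀ a, 0 ≤ c a := fun a => by rw [hc]; exact abs_nonneg _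
  simp only [hcv]
  -- first step: the arithmetic-geometric inequality with weights
  have h1 : ∀ u : Vt N, G u * (2 * c u.1 * G (u.1, u.2 - 2 * u.1) +
      2 * c u.2 * G (u.1 - 2 * u.2, u.2)) ≤
      (c u.1 * gm (nm u.2) (nm (u.2 - 2 * u.1)) * G u ^ 2 +
        c u.1 * gm (nm (u.2 - 2 * u.1)) (nm u.2) * G (u.1, u.2 - 2 * u.1) ^ 2) +
      (c u.2 * gm (nm u.1) (nm (u.1 - 2 * u.2)) * G u ^ 2 +
        c u.2 * gm (nm (u.1 - 2 * u.2)) (nm u.1) * G (u.1 - 2 * u.2, u.2) ^ 2) := by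
    intro u
    have k1 := mul_le_mul_of_nonneg_left
      (two_mul_le_gm (nm u.2) (nm (u.2 - 2 * u.1)) (G u) (G (u.1, u.2 - 2 * u.1))) (hc0 u.1)
    have k2 := mul_le_mul_of_nonneg_left
      (two_mul_le_gm (nm u.1) (nm (u.1 - 2 * u.2)) (G u) (G (u.1 - 2 * u.2, u.2))) (hc0 u.2)
    linarith
  refine (Finset.sum_le_sum fun u _ => h1 u).trans ?_
  rw [Finset.sum_add_distrib, Finset.sum_add_distrib, Finset.sum_add_distrib]
  have e2 : ∑ u : Vt N, c u.1 * gm (nm (u.2 - 2 * u.1)) (nm u.2) * G (u.1, u.2 - 2 * u.1) ^ 2 =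
      ∑ v : Vt N, c v.1 * gm (nm v.2) (nm (v.2 + 2 * v.1)) * G v ^ 2 := by
    rw [← Equiv.sum_comp (shear2 (N := N))
      (fun v : Vt N => c v.1 * gm (nm v.2) (nm (v.2 + 2 * v.1)) * G v ^ 2)]
    refine Finset.sum_congr rfl fun u _ => ?_
    simp only [shear2, Equiv.coe_fn_mk, sub_add_cancel]
  have e1 : ∑ u : Vt N, c u.2 * gm (nm (u.1 - 2 * u.2)) (nm u.1) * G (u.1 - 2 * u.2, u.2) ^ 2 =
      ∑ v : Vt N, c v.2 * gm (nm v.1) (nm (v.1 + 2 * v.2)) * G v ^ 2 := by
    rw [← Equiv.sum_comp (shear1 (N := N))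
      (fun v : Vt N => c v.2 * gm (nm v.1) (nm (v.1 + 2 * v.2)) * G v ^ 2)]
    refine Finset.sum_congr rfl fun u _ => ?_
    simp only [shear1, Equiv.coe_fn_mk, sub_add_cancel]
  rw [e1, e2, ← Finset.sum_add_distrib, ← Finset.sum_add_distrib, ← Finset.sum_add_distrib,
    Finset.mul_sum]
  refine Finset.sum_le_sum fun v _ => ?_
  by_cases hv : v = 0
  · rw [hv, hz]
    simp
  · have k := coeff_le v hv
    simp only [hcv] at k
    have k2 := mul_le_mul_of_nonneg_right k (sq_nonneg (G v))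
    linarith

end Pool.Agent.NXL
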