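import Pool.Agent.NXL.Marg

/-! The number of edges leaving a set of vertices of the Margulis graph. -/

set_option autoImplicit false

namespace Pool.Agent.NXL

/-- every bijection leaves as many vertices of `A` as it brings in -/
theorem card_out_in {N : ℕ} [NeZero N] (A : Finset (Vt N)) (j : Fin 4) :
    (Finset.univ.filter fun z : Vt N => z ∈ A ∧ T j z ∉ A).card =
      (Finset.univ.filter fun z : Vt N => z ∉ A ∧ T j z ∈ A).card := by
  have h1 : (Finset.univ.filter fun z : Vt N => T j z ∈ A).card = A.card := by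
    rw [← Finset.card_map (T j).toEmbedding]
    congr 1
    ext z
    simp only [Finset.mem_map, Finset.mem_filter, Finset.mem_univ, true_and,
      Equiv.coe_toEmbedding]
    constructor
    · rintro ⟨y, hy, rfl⟩
      exact hy
    · intro hz
      exact ⟨(T j).symm z, by simpa using hz, by simp⟩
  have h2 : (Finset.univ.filter fun z : Vt N => z ∈ A ∧ T j z ∉ A).card +
      (Finset.univ.filter fun z : Vt N => z ∈ A ∧ T j z ∈ A).card = A.card := by
    rw [← Finset.card_union_of_disjoint]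
    · congr 1
      ext z
      simp only [Finset.mem_union, Finset.mem_filter, Finset.mem_univ, true_and]
      tauto
    · rw [Finset.disjoint_left]
      intro z hz hz'
      simp only [Finset.mem_filter] at hz hz'
      exact hz.2.2 hz'.2.2
  have h3 : (Finset.univ.filter fun z : Vt N => z ∉ A ∧ T j z ∈ A).card +
      (Finset.univ.filter fun z : Vt N => z ∈ A ∧ T j z ∈ A).card = A.card := by
    rw [← h1, ← Finset.card_union_of_disjoint]
    · congr 1
      ext z
      simp only [Finset.mem_union, Finset.mem_filter, Finset.mem_univ, true_and]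
      tauto
    · rw [Finset.disjoint_left]
      intro z hz hz'
      simp only [Finset.mem_filter] at hz hz'
      exact hz.2.1 hz'.2.1
  omega

/-- the number of edges with exactly one end in `A` -/
theorem card_bd {N : ℕ} [NeZero N] (A : Finset (Vt N)) :
    (bd A).card = 2 * ∑ j : Fin 4, (Finset.univ.filter fun z : Vt N => z ∈ A ∧ T j z ∉ A).card := by
  have h1 : (bd A).card = ∑ j : Fin 4,
      (Finset.univ.filter fun z : Vt N => ¬(z ∈ A ↔ T j z ∈ A)).card := by
    unfold bd
    rw [Finset.card_filter, Fintype.sum_prod_type_right]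
    exact Finset.sum_congr rfl fun j _ => (Finset.card_filter _ _).symm
  rw [h1, Finset.mul_sum]
  refine Finset.sum_congr rfl fun j _ => ?_
  have h2 : (Finset.univ.filter fun z : Vt N => ¬(z ∈ A ↔ T j z ∈ A)).card =
      (Finset.univ.filter fun z : Vt N => z ∈ A ∧ T j z ∉ A).card +
        (Finset.univ.filter fun z : Vt N => z ∉ A ∧ T j z ∈ A).card := by
    rw [← Finset.card_union_of_disjoint]
    · congr 1
      ext z
      simp only [Finset.mem_union, Finset.mem_filter, Finset.mem_univ, true_and]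
      tauto
    · rw [Finset.disjoint_left]
      intro z hz hz'
      simp only [Finset.mem_filter] at hz hz'
      exact hz'.2.1 hz.2.1
  rw [h2, ← card_out_in]
  ring

/-- the function `1_A - |A| / N²` -/
noncomputable def cf {N : ℕ} (A : Finset (Vt N)) (z : Vt N) : ℝ :=
  (if z ∈ A then 1 else 0) - (A.card : ℝ) / (N : ℝ) ^ 2

theorem card_Vt (N : ℕ) [NeZero N] : (Fintype.card (Vt N) : ℝ) = (N : ℝ) ^ 2 := by
  rw [Fintype.card_prod, ZMod.card]
  push_cast
  ring

theorem sum_ind {N : ℕ} [NeZero N] (A : Finset (Vt N)) :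
    ∑ z : Vt N, (if z ∈ A then (1 : ℝ) else 0) = A.card := by
  rw [Finset.sum_ite_mem, Finset.univ_inter, Finset.sum_const, nsmul_eq_mul, mul_one]

theorem sum_cf {N : ℕ} [NeZero N] (A : Finset (Vt N)) : ∑ z, cf A z = 0 := by
  have hN : (N : ℝ) ^ 2 ≠ 0 := pow_ne_zero _ (Nat.cast_ne_zero.2 (NeZero.ne N))
  unfold cf
  rw [Finset.sum_sub_distrib, sum_ind, Finset.sum_const, nsmul_eq_mul, Finset.card_univ, card_Vt,
    mul_div_assoc', mul_div_cancel_left₀ _ hN, sub_self]

theorem sum_cf_perm {N : ℕ} [NeZero N] (A : Finset (Vt N)) (σ : Equiv.Perm (Vt N)) :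
    ∑ z, cf A z * cf A (σ z) =
      ((Finset.univ.filter fun z : Vt N => z ∈ A ∧ σ z ∈ A).card : ℝ) -
        (A.card : ℝ) ^ 2 / (N : ℝ) ^ 2 := by
  have hN : (N : ℝ) ^ 2 ≠ 0 := pow_ne_zero _ (Nat.cast_ne_zero.2 (NeZero.ne N))
  have h1 : ∀ z, cf A z * cf A (σ z) = (if z ∈ A ∧ σ z ∈ A then (1 : ℝ) else 0) -
      (A.card : ℝ) / (N : ℝ) ^ 2 * (if z ∈ A then (1 : ℝ) else 0) -
      (A.card : ℝ) / (N : ℝ) ^ 2 * (if σ z ∈ A then (1 : ℝ) else 0) +
      ((A.card : ℝ) / (N : ℝ) ^ 2) ^ 2 := by
    intro z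
    unfold cf
    by_cases h1 : z ∈ A <;> by_cases h2 : σ z ∈ A <;> simp [h1, h2] <;> ring
  have h2 : ∑ z : Vt N, (if σ z ∈ A then (1 : ℝ) else 0) = A.card := by
    rw [← sum_ind A]
    exact Equiv.sum_comp σ fun z => if z ∈ A then (1 : ℝ) else 0
  rw [Finset.sum_congr rfl fun z _ => h1 z, Finset.sum_add_distrib, Finset.sum_sub_distrib,
    Finset.sum_sub_distrib, ← Finset.mul_sum, ← Finset.mul_sum, sum_ind, h2, Finset.sum_const,
    nsmul_eq_mul, Finset.card_univ, card_Vt, Finset.sum_boole]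
  field_simp
  ring

/-- **Isoperimetry**: a set of vertices with a small number of edges leaving it is small or almost
everything. -/
theorem edge_bound_of (N : ℕ) [NeZero N] (spectral : ∀ f : Vt N → ℝ, ∑ z, f z = 0 →
    ∑ z, f z * ∑ j : Fin 4, f (T j z) ≤ 73 / 20 * ∑ z, f z ^ 2) (A : Finset (Vt N)) :
    7 * ((A.card : ℝ) * ((N : ℝ) ^ 2 - A.card)) ≤ 10 * ((N : ℝ) ^ 2 * (bd A).card) := by
  have hN2 : 0 < (N : ℝ) ^ 2 := by
    have := NeZero.pos N
    positivity
  have h1 := spectral (cf A) (sum_cf A)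
  have h2 : ∑ z, cf A z * ∑ j : Fin 4, cf A (T j z) =
      ∑ j : Fin 4, ((Finset.univ.filter fun z : Vt N => z ∈ A ∧ T j z ∈ A).card : ℝ) -
        4 * ((A.card : ℝ) ^ 2 / (N : ℝ) ^ 2) := by
    simp only [Finset.mul_sum]
    rw [Finset.sum_comm, Finset.sum_congr rfl fun j _ => sum_cf_perm A (T j),
      Finset.sum_sub_distrib]
    simp
  have h3 : ∑ z, cf A z ^ 2 = (A.card : ℝ) - (A.card : ℝ) ^ 2 / (N : ℝ) ^ 2 := by
    have h4 := sum_cf_perm A (Equiv.refl _)
    simp only [Equiv.refl_apply, and_self, Finset.filter_mem_eq_inter, Finset.univ_inter] at h4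
    rw [← h4]
    exact Finset.sum_congr rfl fun z _ => sq _
  have h4 : ∀ j : Fin 4, ((Finset.univ.filter fun z : Vt N => z ∈ A ∧ T j z ∈ A).card : ℝ) =
      A.card - (Finset.univ.filter fun z : Vt N => z ∈ A ∧ T j z ∉ A).card := by
    intro j
    have h5 : (Finset.univ.filter fun z : Vt N => z ∈ A ∧ T j z ∉ A).card +
        (Finset.univ.filter fun z : Vt N => z ∈ A ∧ T j z ∈ A).card = A.card := by
      rw [← Finset.card_union_of_disjoint]
      · congr 1
        ext z
        simp only [Finset.mem_union, Finset.mem_filter, Finset.mem_univ, true_and]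
        tauto
      · rw [Finset.disjoint_left]
        intro z hz hz'
        simp only [Finset.mem_filter] at hz hz'
        exact hz.2.2 hz'.2.2
    rw [← h5]
    push_cast
    ring
  have h5 : ((bd A).card : ℝ) = 2 * ∑ j : Fin 4,
      ((Finset.univ.filter fun z : Vt N => z ∈ A ∧ T j z ∉ A).card : ℝ) := by
    rw [card_bd]
    push_cast
    ring
  rw [h2, h3, Finset.sum_congr rfl fun j _ => h4 j, Finset.sum_sub_distrib] at h1
  simp only [Finset.sum_const, Finset.card_univ, Fintype.card_fin, nsmul_eq_mul] at h1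
  push_cast at h1
  rw [h5]
  generalize (∑ j : Fin 4,
      ((Finset.univ.filter fun z : Vt N => z ∈ A ∧ T j z ∉ A).card : ℝ)) = S at h1 ⊢
  generalize (A.card : ℝ) = a at h1 ⊢
  generalize (N : ℝ) ^ 2 = M at h1 hN2 ⊢
  have h6 : a ^ 2 / M * M = a ^ 2 := div_mul_cancel₀ _ hN2.ne'
  have h7 := mul_le_mul_of_nonneg_right h1 hN2.le
  nlinarith [h7, h6]

end Pool.Agent.NXL
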