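import Pool.Agent.NXL.Core
import Pool.Agent.NXL.List
import Pool.Agent.XL.Final

set_option autoImplicit false

/-!
# Small devices must see many zeros of functions which contain the explicit system
-/

namespace Pool.Agent.NXL

open Finset Pool.Agent.XL Pool.Agent.TeleNeg Pool.Agent.NTR.Gen Pool.Agent.NWE Pool.Agent.GB24.Loc

/-- The number of variables of a block. -/
theorem card_vars (n : ℕ) : Fintype.card (Bvar n 24) = n * 2 ^ 192 := by
  have h : Fintype.card (Bvar n 24) = n * ((2 ^ 24) ^ 8) := by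
    simp only [Bvar, Fintype.card_prod, Fintype.card_fin, Fintype.card_fun, ZMod.card]
  rw [h, ← pow_mul]

/-- The size of the decomposition of a small device: `2^k * 2^k * (n 2^192 + 1)` is at most
`2^(4 q)`. -/
theorem sizeH {k n q S : ℕ} (hq : 197 ≤ q) (hk : k ≤ q) (hn : n ≤ 17 * q)
    (hS : S ≤ 2 ^ k * 2 ^ k * (n * 2 ^ 192 + 1)) : S ≤ 2 ^ (4 * q) := by
  have h1 : n * 2 ^ 192 + 1 ≤ 2 ^ 197 * q := by
    have h2 : (2 : ℕ) ^ 197 = 32 * 2 ^ 192 := by norm_num
    have h3 : 1 ≤ 15 * q * 2 ^ 192 := Nat.mul_pos (by omega) (by positivity)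
    calc n * 2 ^ 192 + 1 ≤ 17 * q * 2 ^ 192 + 15 * q * 2 ^ 192 :=
          add_le_add (Nat.mul_le_mul_right _ hn) h3
      _ = 2 ^ 197 * q := by rw [h2]; ring
  have h5 : 2 ^ k ≤ 2 ^ q := Nat.pow_le_pow_right (by norm_num) hk
  have h6 : (2 : ℕ) ^ 197 ≤ 2 ^ q := Nat.pow_le_pow_right (by norm_num) hq
  have h7 : q ≤ 2 ^ q := Nat.lt_two_pow_self.le
  calc S ≤ 2 ^ k * 2 ^ k * (n * 2 ^ 192 + 1) := hS
    _ ≤ 2 ^ q * 2 ^ q * (2 ^ q * 2 ^ q) :=
        Nat.mul_le_mul (Nat.mul_le_mul h5 h5) (h1.trans (Nat.mul_le_mul h6 h7))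
    _ = 2 ^ (4 * q) := by
        rw [← pow_add, ← pow_add]
        congr 1
        ring

/-- A small device below `incon` accepts few positive inputs. -/
theorem few_smallH {N k q : ℕ}
    (hX : ∀ A : Finset (Fin (N * N)), 7 * A.card ≤ 2 * (N * N) → A.card ≤ 2 * (supp (eF N) A).card)
    (hq : 197 ≤ q) (hk : k ≤ q) (hq1 : 16 * q ≤ N * N) (hq2 : N * N ≤ 17 * q)
    (b : Fin (N * N) → ZMod 2) (G : (Bvar (N * N) 24 → Bool) → Bool) (hG : Small k G)
    (hle : ∀ u, G u = true → incon (eF N) b u = true) :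
    2 ^ (12 * q) * (univ.filter fun W : Fin (4 * (N * N)) → Fin 24 → ZMod 2 =>
      (∀ j, W j ≠ 0) ∧ G (PW (eF N) W) = true).card ≤ (2 ^ 24 - 1) ^ (4 * (N * N)) := by
  classical
  obtain ⟨F, hF, S, h2, hS', hD⟩ := Small.decomp hG
  have hS : S ≤ 2 ^ (4 * q) := by
    refine sizeH hq hk hq2 ?_
    rw [card_vars] at hS'
    exact hS'
  have hE : ExpandH (N * N / 7) (eF N) := fun A hA => hX A (by omega)
  have h3 := few_numH F h2 hE b (by omega) (by omega) (by omega) hD hle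
  have h4 : 2 ^ (N * N) * (univ.filter fun W : Fin (4 * (N * N)) → Fin 24 → ZMod 2 =>
      (∀ j, W j ≠ 0) ∧ G (PW (eF N) W) = true).card ≤
      2 ^ (4 * q) * (2 ^ 24 - 1) ^ (4 * (N * N)) := h3.trans (Nat.mul_le_mul_right _ hS)
  have h5 : 2 ^ (4 * q) * (2 ^ (12 * q) * (univ.filter fun W : Fin (4 * (N * N)) → Fin 24 → ZMod 2 =>
      (∀ j, W j ≠ 0) ∧ G (PW (eF N) W) = true).card) ≤
      2 ^ (4 * q) * (2 ^ 24 - 1) ^ (4 * (N * N)) := by
    refine le_trans ?_ h4
    rw [← mul_assoc, ← pow_add]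
    exact Nat.mul_le_mul_right _ (Nat.pow_le_pow_right (by norm_num) (by omega))
  exact Nat.le_of_mul_le_mul_left h5 (by positivity)

/-- **The hard inputs of a function which contains the explicit system**, from the expansion of the
system. -/
theorem hard_list_of {N k n : ℕ}
    (hX : ∀ A : Finset (Fin (N * N)), 7 * A.card ≤ 2 * (N * N) → A.card ≤ 2 * (supp (eF N) A).card)
    (hk : 1 ≤ k) (hkN : 2 ^ 16 * k ≤ N * N)
    (g : (Bvar (N * N) 24 → Bool) → Prop) (hg : ∀ u v, u ≤ v → g u → g v)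
    (hsound : ∀ u, g u → incon (eF N) (fun _ => 1) u = true)
    (hPW : ∀ W, g (PW (eF N) W))
    (f : (Fin n → Bool) → Prop) (φ : Fin n → Bvar (N * N) 24 ⊕ Bool)
    (hφs : ∀ e, ∃ v, φ v = Sum.inl e) (hφ : ∀ x, f (fun v => Sum.elim x id (φ v)) ↔ g x) :
    ∃ H : Finset (Fin n → Bool), H.Nonempty ∧ (∀ x ∈ H, f x) ∧
      ∀ (t : ℕ) (G : (Fin t → Bool) → (Fin n ⊕ Fin n → Bool) → Bool),
        (∀ y, Small k (G y)) → (∀ y x, G y (lits x) = true → f x) →
        ∀ A ⊆ H, (∀ x ∈ A, ∃ (y : Fin t → Bool) (Z : Finset (Fin n)),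
          (∀ v ∈ Z, x v = false) ∧ t + Z.card ≤ k ∧ G y (litsOn univ Z x) = true) →
          2 ^ k * A.card ≤ H.card := by
  classical
  obtain ⟨q, hq⟩ : ∃ q, q = N * N / 16 := ⟨_, rfl⟩
  have hq1 : 16 * q ≤ N * N := by omega
  have hq2 : N * N ≤ 17 * q := by omega
  have hq3 : 4096 * k ≤ q := by omega
  have hcard := card_vars (N * N)
  set R := univ.filter fun W : Fin (4 * (N * N)) → Fin 24 → ZMod 2 => ∀ j, W j ≠ 0 with hR
  have hRc : R.card = (2 ^ 24 - 1) ^ (4 * (N * N)) := card_pos_inputs (4 * (N * N)) 24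
  obtain ⟨ρ, M, h1, h2, h3⟩ := hardSet_bin (smallClass k) (Q := 2 ^ (12 * q)) g hg
    (R.map ⟨PW (eF N), PW_injective (occurs N)⟩) (by
      rw [Finset.map_nonempty, ← Finset.card_pos, hRc]
      positivity) (by
      intro u hu
      obtain ⟨W, -, rfl⟩ := Finset.mem_map.1 hu
      exact hPW W) (by
      intro G hG hle
      have h4 := few_smallH (k := k) hX (by omega) (by omega) hq1 hq2 (fun _ => 1) G hG
        fun u hu => hsound u (hle u hu)
      rw [Finset.card_map, hRc]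
      refine le_trans (le_of_eq ?_) h4
      congr 1
      rw [Finset.filter_map, Finset.card_map]
      congr 1
      ext W
      simp only [hR, Finset.mem_filter, Finset.mem_univ, true_and, Function.comp_apply,
        Function.Embedding.coeFn_mk])
    f univ φ hφs (fun v hv => absurd (Finset.mem_univ v) hv) hφ
    (fun D => ∃ F, (smallClass k).mem _ F ∧ ∀ p, D p = F (known p)) (fun D h => h)
  refine ⟨M, h1, fun x hx => (h2 x hx).1, fun t G hG hs A hA hacc => ?_⟩
  rcases A.eq_empty_or_nonempty with rfl | hAne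
  · simp
  obtain ⟨z₀, hz₀⟩ := hAne
  obtain ⟨_, _, _, ht, _⟩ := hacc z₀ hz₀
  have htk : t ≤ k := by omega
  have h4 := h3 (Fin t → Bool) (k - t) (fun y p => G y (known p))
    (fun y => ⟨G y, hG y, fun _ => rfl⟩) (fun y x _ hy => by
      refine hs y x ?_
      rw [known_some] at hy
      exact hy)
  have h5 : A.card ≤ {x | x ∈ M ∧ AccSees univ (k - t) (fun y p => G y (known p)) x}.ncard := by
    rw [← Set.ncard_coe_finset]
    refine Set.ncard_le_ncard ?_ (M.finite_toSet.subset fun x hx => hx.1)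
    intro z hz
    obtain ⟨y, Z, hZ0, hZc, hy⟩ := hacc z hz
    refine ⟨hA hz, y, Z, Finset.subset_univ Z, by omega, hZ0, ?_⟩
    change G y (known (NWE.hide univ Z z)) = true
    rw [known_hide univ Z z hZ0, litsOn_eq]
    exact hy
  have h6 : (univ.filter fun Z : Finset (Bvar (N * N) 24) => Z.card ≤ k - t).card ≤
      2 ^ (3 * q) := count_subsets_of (by rw [hcard]; exact Nat.mul_le_mul_right _ (by omega))
        (by omega)
  have h7 : Fintype.card (Fin t → Bool) = 2 ^ t := by simp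
  have h8 : 2 ^ (12 * q) * A.card ≤ 2 ^ t * 2 ^ (3 * q) * M.card := by
    refine (Nat.mul_le_mul_left _ h5).trans (h4.trans ?_)
    rw [h7]
    gcongr
  have h9 : 2 ^ (12 * q) = 2 ^ t * 2 ^ (3 * q) * (2 ^ k * 2 ^ (9 * q - t - k)) := by
    rw [← pow_add, ← pow_add, ← pow_add]
    congr 1
    omega
  rw [h9, mul_assoc] at h8
  have h10 := Nat.le_of_mul_le_mul_left h8 (by positivity)
  refine le_trans ?_ h10
  rw [mul_assoc]
  exact Nat.mul_le_mul_left _ (Nat.le_mul_of_pos_left _ (by positivity))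

end Pool.Agent.NXL
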