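import Pool.Agent.NXL.Eq
import Pool.Agent.Lib.PolyTime.PB

set_option autoImplicit false

/-!
# Certificates for the inconsistency of a list of equations

The labels of the equations at a vertex are the numbers below `2 ^ 192` (eight blocks of `24` bits).
-/

namespace Pool.Agent.NXL

open Finset Pool.Agent.PolyTime

/-- The number of labels of a vertex. -/
def KK : ℕ := 2 ^ 192

lemma KK_pos : 0 < KK := by unfold KK; positivity

/-- The side of the graph: the largest odd number whose square times `KK` is at most `n` (or `0`). -/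
def NN (n : ℕ) : ℕ := 2 * ((Nat.sqrt (n / KK) + 1) / 2) - 1

/-- The number `w` (by its bits) is an inconsistent combination of equations of the list `x`: it
consists of an odd number of equations of the list in which every unknown cancels. -/
def Cert (N : ℕ) (x w : ℕ → Bool) : Prop :=
  (∀ a < N * N * KK, w a = true → x a = true) ∧
  (∑ a ∈ range (N * N * KK), if w a = true then 1 else 0) % 2 = 1 ∧
  ∀ g < 4 * (N * N), ∀ t < 24, (∑ a ∈ range (N * N * KK), ∑ c ∈ range 8,
    if w a = true ∧ eN N (a / KK) c = g ∧ (a % KK).testBit (24 * c + t) = true then 1 else 0) % 2 = 0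

/-! ### Polynomial time -/

variable {α : Type} [Ctx α]

lemma pf_eN {N I C : List Bool → α → ℕ} (hN : PF N) (hI : PF I) (hC : PF C) :
    PF (fun y a => eN (N y a) (I y a) (C y a)) := by
  unfold eN
  refine PF.ite (PD.lt hC (PF.const 4)) (((PF.const 4).mul hI).add hC) ?_
  refine PF.ite (PD.eq hC (PF.const 4)) ((PF.const 4).mul ((((hI.div hN).add
    ((PF.const 2).mul (hN.sub (hI.mod hN)))).mod hN).mul hN |>.add (hI.mod hN))) ?_
  refine PF.ite (PD.eq hC (PF.const 5)) (((PF.const 4).mul (((((hI.div hN).add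
    ((PF.const 2).mul (hN.sub (hI.mod hN)))).add (hN.sub (PF.const 1))).mod hN).mul hN
    |>.add (hI.mod hN))).add (PF.const 1)) ?_
  refine PF.ite (PD.eq hC (PF.const 6)) (((PF.const 4).mul (((hI.div hN).mul hN).add
    (((hI.mod hN).add ((PF.const 2).mul (hN.sub (hI.div hN)))).mod hN))).add (PF.const 2)) ?_
  exact ((PF.const 4).mul (((hI.div hN).mul hN).add
    ((((hI.mod hN).add ((PF.const 2).mul (hN.sub (hI.div hN)))).add
      (hN.sub (PF.const 1))).mod hN))).add (PF.const 3)

lemma pf_NN {A : List Bool → α → ℕ} (hA : PF A) : PF (fun y a => NN (A y a)) := by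
  unfold NN
  exact (((PF.const 2).mul (((hA.div (PF.const KK)).sqrt.add (PF.const 1)).div
    (PF.const 2))).sub (PF.const 1))

lemma pd_cert {N : List Bool → α → ℕ} {X W : List Bool → α → ℕ → Bool} (hN : PF N)
    (hX : PD (fun y (p : α × ℕ) => X y p.1 p.2 = true))
    (hW : PD (fun y (p : α × ℕ) => W y p.1 p.2 = true)) :
    PD (fun y a => Cert (N y a) (X y a) (W y a)) := by
  have hM : PF (fun y a => N y a * N y a * KK) := (hN.mul hN).mul (PF.const KK)
  have c1 : PD (fun y a => ∀ i < N y a * N y a * KK, W y a i = true → X y a i = true) := by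
    refine PD.forall_lt (P := fun y (p : α × ℕ) => W y p.1 p.2 = true → X y p.1 p.2 = true) hM ?_
    exact (hW.not.or hX).congr fun y p => by tauto
  have c2 : PD (fun y a =>
      (∑ i ∈ range (N y a * N y a * KK), if W y a i = true then 1 else 0) % 2 = 1) :=
    PD.eq ((PF.sum (F := fun y (p : α × ℕ) => if W y p.1 p.2 = true then 1 else 0) hM
      (PF.ite hW (PF.const 1) (PF.const 0))).mod (PF.const 2)) (PF.const 1)
  -- contexts: α, g, t, a, c
  have h1 : PD (fun y (p : (((α × ℕ) × ℕ) × ℕ) × ℕ) => W y p.1.1.1.1 p.1.2 = true) :=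
    PD.sub1 (Proj.id.fst.fst.fst.fst) PF.snd.fst hW
  have h2 : PD (fun y (p : (((α × ℕ) × ℕ) × ℕ) × ℕ) =>
      eN (N y p.1.1.1.1) (p.1.2 / KK) p.2 = p.1.1.1.2) :=
    PD.eq (pf_eN hN.fst.fst.fst.fst (PF.snd.fst.div (PF.const KK)) PF.snd) PF.snd.fst.fst.fst
  have h3 : PD (fun y (p : (((α × ℕ) × ℕ) × ℕ) × ℕ) =>
      (p.1.2 % KK).testBit (24 * p.2 + p.1.1.2) = true) :=
    PD.testBit (PF.snd.fst.mod (PF.const KK)) (((PF.const 24).mul PF.snd).add PF.snd.fst.fst)
  have c3 : PD (fun y a => ∀ g < 4 * (N y a * N y a), ∀ t < 24,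
      (∑ i ∈ range (N y a * N y a * KK), ∑ c ∈ range 8,
        if W y a i = true ∧ eN (N y a) (i / KK) c = g ∧ (i % KK).testBit (24 * c + t) = true
        then 1 else 0) % 2 = 0) := by
    refine PD.forall_lt (P := fun y (p : α × ℕ) => ∀ t < 24,
      (∑ i ∈ range (N y p.1 * N y p.1 * KK), ∑ c ∈ range 8,
        if W y p.1 i = true ∧ eN (N y p.1) (i / KK) c = p.2 ∧
          (i % KK).testBit (24 * c + t) = true
        then 1 else 0) % 2 = 0) ((PF.const 4).mul (hN.mul hN)) ?_
    refine PD.forall_lt (B := fun _ (_ : α × ℕ) => 24) (P := fun y (p : (α × ℕ) × ℕ) =>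
      (∑ i ∈ range (N y p.1.1 * N y p.1.1 * KK), ∑ c ∈ range 8,
        if W y p.1.1 i = true ∧ eN (N y p.1.1) (i / KK) c = p.1.2 ∧
          (i % KK).testBit (24 * c + p.2) = true
        then 1 else 0) % 2 = 0) (PF.const 24) ?_
    refine PD.eq (PF.mod ?_ (PF.const 2)) (PF.const 0)
    refine PF.sum (F := fun y (p : ((α × ℕ) × ℕ) × ℕ) => ∑ c ∈ range 8,
        if W y p.1.1.1 p.2 = true ∧ eN (N y p.1.1.1) (p.2 / KK) c = p.1.1.2 ∧
          (p.2 % KK).testBit (24 * c + p.1.2) = true
        then 1 else 0) hM.fst.fst ?_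
    refine PF.sum (B := fun _ (_ : ((α × ℕ) × ℕ) × ℕ) => 8)
      (F := fun y (p : (((α × ℕ) × ℕ) × ℕ) × ℕ) =>
        if W y p.1.1.1.1 p.1.2 = true ∧ eN (N y p.1.1.1.1) (p.1.2 / KK) p.2 = p.1.1.1.2 ∧
          (p.1.2 % KK).testBit (24 * p.2 + p.1.1.2) = true
        then 1 else 0) (PF.const 8) ?_
    exact PF.ite (h1.and (h2.and h3)) (PF.const 1) (PF.const 0)
  exact c1.and (c2.and c3)

end Pool.Agent.NXL
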