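import Pool.Agent.NXL.Sem
import Pool.Agent.Zeros.ETime

set_option autoImplicit false

/-!
# The language of lists of equations on the Margulis graph with a certificate
-/

namespace Pool.Agent.NXL

open Finset Pool.Agent.PolyTime Pool.Agent.NegLim Pool.Agent.NegLim.Lang

open Classical in
/-- The language: the first `n / d` letters of a word of length `n`, read as a list of linear
equations, have a certificate of inconsistency. -/
noncomputable def nxlang (d : ℕ) (x : List Bool) : Bool :=
  decide (∃ w : ℕ → Bool, Cert (NN (x.length / d)) (fun i => x.getD i false) w)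

lemma nxlang_iff (d : ℕ) (x : List Bool) : nxlang d x = true ↔
    ∃ w : ℕ → Bool, Cert (NN (x.length / d)) (fun i => x.getD i false) w := by
  classical
  unfold nxlang
  exact decide_eq_true_iff

lemma NN_le (n : ℕ) : NN n * NN n * KK ≤ n := by
  have h1 : NN n ≤ Nat.sqrt (n / KK) := by unfold NN; omega
  calc NN n * NN n * KK ≤ Nat.sqrt (n / KK) * Nat.sqrt (n / KK) * KK := by gcongr
    _ ≤ n / KK * KK := Nat.mul_le_mul_right _ (Nat.sqrt_le _)
    _ ≤ n := Nat.div_mul_le_self _ _

lemma NN_odd {n : ℕ} (h : KK ≤ n) : Odd (NN n) := by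
  have h1 : 1 ≤ Nat.sqrt (n / KK) := by
    rw [Nat.le_sqrt]
    rw [Nat.le_div_iff_mul_le KK_pos]
    omega
  unfold NN
  refine ⟨(Nat.sqrt (n / KK) + 1) / 2 - 1, ?_⟩
  omega

lemma lt_NN (n : ℕ) : n < (NN n + 2) * (NN n + 2) * KK := by
  have h1 : Nat.sqrt (n / KK) + 1 ≤ NN n + 2 := by unfold NN; omega
  have h2 : n / KK < (Nat.sqrt (n / KK) + 1) * (Nat.sqrt (n / KK) + 1) := Nat.lt_succ_sqrt _
  have h3 : n < (Nat.sqrt (n / KK) + 1) * (Nat.sqrt (n / KK) + 1) * KK :=
    (Nat.div_lt_iff_lt_mul KK_pos).mp h2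
  refine lt_of_lt_of_le h3 ?_
  gcongr

/-- The size of the graph is linear. -/
lemma NN_large {n k : ℕ} (hk : 1 ≤ k) (h : 9 * KK * k ≤ n) : k ≤ NN n * NN n ∧ Odd (NN n) := by
  have h1 := lt_NN n
  have hK : KK ≤ n := by
    calc KK = 1 * KK * 1 := by ring
      _ ≤ 9 * KK * k := by gcongr; omega
      _ ≤ n := h
  have h2 := NN_odd hK
  have h3 : 1 ≤ NN n := h2.pos
  refine ⟨?_, h2⟩
  by_contra hlt
  push Not at hlt
  have h4 : (NN n + 2) * (NN n + 2) * KK ≤ 9 * KK * k := by
    calc (NN n + 2) * (NN n + 2) * KK ≤ (3 * NN n) * (3 * NN n) * KK := by gcongr <;> omega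
      _ = 9 * KK * (NN n * NN n) := by ring
      _ ≤ 9 * KK * k := Nat.mul_le_mul_left _ hlt.le
  omega

/-- The property of padded words. -/
def PLV (y : List Bool) : Prop :=
  ∃ s < y.length, Cert (NN (wlen y)) (wbit y) (fun a => s.testBit a)

lemma pd_plv {α : Type} [Ctx α] : PD (fun y (_ : α) => PLV y) := by
  refine PD.exists_lt (P := fun y (p : α × ℕ) => Cert (NN (wlen y)) (wbit y)
    (fun a => p.2.testBit a)) PF.len ?_
  exact pd_cert (N := fun y (_ : α × ℕ) => NN (wlen y)) (X := fun y _ => wbit y)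
    (W := fun _ (p : α × ℕ) a => p.2.testBit a) (pf_NN pf_wlen) (pd_wbit PF.snd)
    (PD.testBit PF.snd.fst PF.snd)

lemma plv_pad (z : List Bool) : PLV (pad z) ↔
    ∃ w : ℕ → Bool, Cert (NN z.length) (fun i => z.getD i false) w := by
  unfold PLV
  rw [wlen_pad]
  have hb : wbit (pad z) = fun i => z.getD i false := by
    funext i
    exact wbit_pad z i
  rw [hb]
  constructor
  · rintro ⟨s, _, h⟩
    exact ⟨_, h⟩
  · rintro ⟨w, h⟩
    refine ⟨Nat.ofBits fun k : Fin z.length => w k, ?_, ?_⟩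
    · refine lt_of_lt_of_le (Nat.ofBits_lt_two_pow _) ?_
      rw [length_pad]
      omega
    · refine cert_congr (fun a ha => ?_) h
      rw [Nat.testBit_ofBits_lt _ _ (lt_of_lt_of_le ha (NN_le _))]

/-- **The language is decidable in time `O(2^n)`.** -/
theorem nxlang_time : ∃ d : ℕ, 1 ≤ d ∧ ∃ c : ℕ,
    DecidableInTime (nxlang d) (fun n => c * 2 ^ n) := by
  classical
  obtain ⟨d, hd, c, hc⟩ := Zeros.exp_take PLV pd_plv
  refine ⟨d, hd, c, ?_⟩
  have h : nxlang d = fun x => decide (PLV (pad (x.take (x.length / d)))) := by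
    funext x
    rw [Bool.eq_iff_iff, nxlang_iff, decide_eq_true_iff, plv_pad, List.length_take,
      min_eq_left (Nat.div_le_self _ _)]
    refine exists_congr fun w => ?_
    have h1 : ∀ i < NN (x.length / d) * NN (x.length / d) * KK,
        x.getD i false = (x.take (x.length / d)).getD i false := by
      intro i hi
      have h2 := lt_of_lt_of_le hi (NN_le _)
      have h3 : x.length / d ≤ x.length := Nat.div_le_self _ _
      rw [List.getD_eq_getElem _ _ (by omega),
        List.getD_eq_getElem _ _ (by rw [List.length_take]; omega), List.getElem_take]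
    exact ⟨fun h => cert_mono (fun a ha hx => by rw [← h1 a ha]; exact hx) h,
      fun h => cert_mono (fun a ha hx => by rw [h1 a ha]; exact hx) h⟩
  rw [h]
  exact hc

/-- The verifier. -/
def NVer (d : ℕ) (y : List Bool) : Prop := Cert (NN (NPL.plen y / d)) (NPL.xbit y) (NPL.sbit y)

lemma pd_nver (d : ℕ) {α : Type} [Ctx α] : PD (fun y (_ : α) => NVer d y) :=
  pd_cert (N := fun y (_ : α) => NN (NPL.plen y / d)) (X := fun y _ => NPL.xbit y)
    (W := fun y _ => NPL.sbit y) (pf_NN (NPL.pf_plen.div (PF.const d))) (NPL.pd_xbit PF.snd)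
    (NPL.pd_sbit PF.snd)

open Classical in
/-- **The language is in NP.** -/
theorem nxlang_inNP (d : ℕ) : InNP (nxlang d) := by
  refine ⟨fun y => decide (NVer d y), 1, Zeros.polyTime_of_pd _ (pd_nver d), fun x => ?_⟩
  rw [nxlang_iff]
  have hlt : ∀ a < NN (x.length / d) * NN (x.length / d) * KK, a < x.length := fun a ha =>
    lt_of_lt_of_le (lt_of_lt_of_le ha (NN_le _)) (Nat.div_le_self _ _)
  constructor
  · rintro ⟨w, hw⟩
    refine ⟨List.ofFn fun k : Fin x.length => w k, ?_, ?_⟩
    · rw [List.length_ofFn, pow_one]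
      omega
    · rw [decide_eq_true_iff]
      unfold NVer
      rw [NPL.plen_pair]
      refine cert_congr (w := w) (fun a ha => ?_) (cert_mono (fun a ha hx => ?_) hw)
      · rw [NPL.sbit_pair, List.getD_eq_getElem _ _ (by rw [List.length_ofFn]; exact hlt a ha),
          List.getElem_ofFn]
      · rw [NPL.xbit_pair _ _ _ (hlt a ha)]
        exact hx
  · rintro ⟨w, _, hw⟩
    rw [decide_eq_true_iff] at hw
    unfold NVer at hw
    rw [NPL.plen_pair] at hw
    exact ⟨_, cert_mono (fun a ha hx => by rw [← NPL.xbit_pair x w a (hlt a ha)]; exact hx) hw⟩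

/-- The language is monotone on the words of each length. -/
theorem nxlang_mono (d n : ℕ) : Monotone fun x : Fin n → Bool => nxlang d (List.ofFn x) := by
  intro x y hxy
  rw [Bool.le_iff_imp]
  simp only
  intro hx
  rw [nxlang_iff] at hx ⊢
  rw [List.length_ofFn] at hx ⊢
  obtain ⟨w, hw⟩ := hx
  refine ⟨w, cert_mono (fun a ha h => ?_) hw⟩
  have h1 : a < n := lt_of_lt_of_le (lt_of_lt_of_le ha (NN_le _)) (Nat.div_le_self _ _)
  rw [List.getD_eq_getElem _ _ (by rw [List.length_ofFn]; exact h1), List.getElem_ofFn] at h ⊢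
  exact Bool.le_iff_imp.mp (hxy _) h

end Pool.Agent.NXL
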