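import Pool.Agent.NXL.Main
import Pool.Agent.NXL.Hard2

set_option autoImplicit false

/-!
# Small devices, comparator circuits included, must see a linear number of zeros of the language
-/

namespace Pool.Agent.NXL

open Finset Pool.Agent.NegLim Pool.Agent.XL Pool.Agent.NWE

/-- The hard inputs of length `n`, comparator circuits included. -/
theorem nxlang_hard2 (d : ℕ) (hd : 1 ≤ d) (n k : ℕ) (hk : 1 ≤ k)
    (hn : d * (9 * KK * 2 ^ 16) * k ≤ n) :
    ∃ H : Finset (Fin n → Bool), H.Nonempty ∧ (∀ x ∈ H, nxlang d (List.ofFn x) = true) ∧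
      ∀ (t : ℕ) (D : (Fin t → Bool) → (Fin n ⊕ Fin n → Bool) → Bool),
        (∀ y, Small2 k (D y)) → (∀ y x, D y (lits x) = true → nxlang d (List.ofFn x) = true) →
        ∀ A ⊆ H, (∀ x ∈ A, ∃ (y : Fin t → Bool) (Z : Finset (Fin n)),
          (∀ v ∈ Z, x v = false) ∧ t + Z.card ≤ k ∧ D y (litsOn univ Z x) = true) →
          2 ^ k * A.card ≤ H.card := by
  classical
  set N := NN (n / d) with hNd
  have h1 : 9 * KK * (2 ^ 16 * k) ≤ n / d := by
    rw [Nat.le_div_iff_mul_le (by omega)]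
    calc 9 * KK * (2 ^ 16 * k) * d = d * (9 * KK * 2 ^ 16) * k := by ring
      _ ≤ n := hn
  obtain ⟨h2, h3⟩ := NN_large (n := n / d) (k := 2 ^ 16 * k) (by omega) h1
  have hle : ∀ a < N * N * KK, a < n := fun a ha =>
    lt_of_lt_of_le (lt_of_lt_of_le ha (NN_le _)) (Nat.div_le_self _ _)
  refine hard_list2 (N := N) h3 hk h2 (fun u => ∃ w, Cert N (word N u) w) ?_ ?_ ?_
    (fun x => nxlang d (List.ofFn x) = true) (fun a => pos N a) ?_ ?_
  · rintro u v huv ⟨w, hw⟩
    refine ⟨w, cert_mono (fun a ha h => ?_) hw⟩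
    have e : a = KK * (a / KK) + a % KK := (Nat.div_add_mod a KK).symm
    have hi : a / KK < N * N := Nat.div_lt_of_lt_mul (by rwa [mul_comm] at ha)
    have hl : a % KK < KK := Nat.mod_lt _ KK_pos
    rw [e, word_of_lt _ hi hl] at h ⊢
    exact Bool.le_iff_imp.mp (huv _) h
  · rintro u ⟨w, hw⟩
    exact cert_sound hw
  · intro W
    exact ⟨_, cert_PW W h3⟩
  · intro e
    obtain ⟨h4, h5⟩ := exists_pos e
    exact ⟨⟨_, hle _ h4⟩, h5⟩
  · intro u
    rw [nxlang_iff, List.length_ofFn]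
    refine exists_congr fun w => ⟨fun h => cert_mono (fun a ha hx => ?_) h,
      fun h => cert_mono (fun a ha hx => ?_) h⟩
    · rw [getD_ofFn _ (hle a ha)] at hx
      exact hx
    · rw [getD_ofFn _ (hle a ha)]
      exact hx

/-- A language in NP, decidable in time `O(2^n)`, monotone, of which small devices, comparator
circuits included, must see a linear number of zeros. -/
theorem main_lang2 : ∃ (C : ℕ) (L : List Bool → Bool), 1 ≤ C ∧ InNP L ∧
    (∃ c : ℕ, DecidableInTime L (fun n => c * 2 ^ n)) ∧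
    (∀ n, Monotone fun x : Fin n → Bool => L (List.ofFn x)) ∧
    ∀ n k, 1 ≤ k → C * k ≤ n →
      ∃ H : Finset (Fin n → Bool), H.Nonempty ∧ (∀ x ∈ H, L (List.ofFn x) = true) ∧
        ∀ (t : ℕ) (D : (Fin t → Bool) → (Fin n ⊕ Fin n → Bool) → Bool),
          (∀ y, Small2 k (D y)) → (∀ y x, D y (lits x) = true → L (List.ofFn x) = true) →
          ∀ A ⊆ H, (∀ x ∈ A, ∃ (y : Fin t → Bool) (Z : Finset (Fin n)),
            (∀ v ∈ Z, x v = false) ∧ t + Z.card ≤ k ∧ D y (litsOn univ Z x) = true) →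
          2 ^ k * A.card ≤ H.card := by
  obtain ⟨d, hd, c, hc⟩ := nxlang_time
  have hK := KK_pos
  refine ⟨d * (9 * KK * 2 ^ 16), nxlang d, ?_, nxlang_inNP d, ⟨c, hc⟩, nxlang_mono d, ?_⟩
  · exact Nat.mul_pos hd (Nat.mul_pos (Nat.mul_pos (by norm_num) hK) (by norm_num))
  · intro n k hk hn
    exact nxlang_hard2 d hd n k hk hn

end Pool.Agent.NXL
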