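import Mathlib

set_option autoImplicit false

/-!
# The Margulis graph: definitions
-/

namespace Pool.Agent.NXL

/-- The vertices of the graph. -/
abbrev Vt (N : ℕ) : Type := ZMod N × ZMod N

/-- The four bijections `(a, b) ↦ (a + 2b, b), (a + 2b + 1, b), (a, b + 2a), (a, b + 2a + 1)`. -/
def T {N : ℕ} : Fin 4 → Equiv.Perm (Vt N)
  | 0 => ⟨fun p => (p.1 + 2 * p.2, p.2), fun p => (p.1 - 2 * p.2, p.2),
      fun p => by ext <;> simp, fun p => by ext <;> simp⟩
  | 1 => ⟨fun p => (p.1 + 2 * p.2 + 1, p.2), fun p => (p.1 - 2 * p.2 - 1, p.2),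
      fun p => by ext <;> simp <;> ring, fun p => by ext <;> simp <;> ring⟩
  | 2 => ⟨fun p => (p.1, p.2 + 2 * p.1), fun p => (p.1, p.2 - 2 * p.1),
      fun p => by ext <;> simp, fun p => by ext <;> simp⟩
  | 3 => ⟨fun p => (p.1, p.2 + 2 * p.1 + 1), fun p => (p.1, p.2 - 2 * p.1 - 1),
      fun p => by ext <;> simp <;> ring, fun p => by ext <;> simp <;> ring⟩

/-- The edges: `(z, j)` joins `z` and `T j z`. -/
abbrev Ed (N : ℕ) : Type := Vt N × Fin 4

/-- The edges with exactly one end in `A`. -/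
def bd {N : ℕ} [NeZero N] (A : Finset (Vt N)) : Finset (Ed N) :=
  Finset.univ.filter fun e => ¬(e.1 ∈ A ↔ T e.2 e.1 ∈ A)

end Pool.Agent.NXL
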