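import Pool.Agent.NXL.AvgS
import Pool.Agent.XL.NotGates

set_option autoImplicit false

/-!
# A monotone language in NP: networks with NOT gates
-/

namespace Pool.Agent.NXL

open Finset Pool.Agent.XL Pool.Agent.NTR Pool.Agent.NTN Pool.Agent.TeleNeg Pool.Agent.NegLim
open scoped BigOperators

open Classical in
/-- **A monotone language in NP, few NOT gates, few changes of the answers to monotone queries.** -/
theorem not_gates_lang :
    ∃ (C : ℕ) (L : List Bool → Bool), 1 ≤ C ∧ InNP L ∧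
      (∃ c : ℕ, DecidableInTime L (fun n => c * 2 ^ n)) ∧
      (∀ n : ℕ, Monotone fun x : Fin n → Bool => L (List.ofFn x)) ∧
      ∀ n k : ℕ, 1 ≤ n → 1 ≤ k →
        ∃ μ : (Fin n → Bool) → ℝ, (∀ x, 0 ≤ μ x) ∧ ∑ x, μ x = 1 ∧
          (∀ (t : ℕ) (A : (Fin n → Bool) → Bool), t < 2 ^ k → NotGates (devClass k) t A →
            ∑ x with A x = L (List.ofFn x), μ x
              ≤ 1 / 2 + (1 / 2) ^ k + 2 ^ t * (C * k) / n) ∧
          ∀ (ts : List ℕ) (b : ℕ) (A : (Fin n → Bool) → Bool), ts.sum < 2 ^ k →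
            Tries (devClass k) univ ts 1 b A →
            ∑ x with A x = L (List.ofFn x), μ x
              ≤ 1 / 2 + (1 / 2) ^ k + b * (C * k) / n := by
  obtain ⟨d, hd, c, hc⟩ := slang_time
  refine ⟨2 * CS d, slang d, ?_, slang_inNP d, ⟨c, hc⟩, slang_mono d, fun n k hn hk => ?_⟩
  · have h1 : 0 < CS d := by
      unfold CS
      exact Nat.mul_pos (Nat.mul_pos (by norm_num) hd)
        (Nat.mul_pos (Nat.mul_pos (by norm_num) KK_pos) (by norm_num))
    exact Nat.succ_le_of_lt (Nat.mul_pos (by norm_num) h1)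
  obtain ⟨μ, m1, m2, m3⟩ := slang_average (n := n) hd hk hn
  have key : ∀ (ts : List ℕ) (b : ℕ) (A : (Fin n → Bool) → Bool), ts.sum < 2 ^ k →
      Tries (devClass k) univ ts 1 b A →
      ∑ x with A x = slang d (List.ofFn x), μ x
        ≤ 1 / 2 + (1 / 2) ^ k + b * ((2 * CS d : ℕ) * k) / n := by
    intro ts b A hts hA
    refine (le_of_eq (sum_filter_iff' μ _ _ _ _ fun x => ?_)).trans
      ((m3 ts 1 b A hts hA).trans (le_of_eq ?_))
    · exact Bool.eq_iff_iff
    · generalize CS d = e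
      push_cast
      ring
  refine ⟨μ, m1, m2, fun t A ht hA => ?_, key⟩
  obtain ⟨ts, b, h1, h2, h3⟩ := hA.tries univ
  refine (key ts b A (by rw [h1]; exact ht) h3).trans ?_
  have h4 : (b : ℝ) ≤ 2 ^ t := by exact_mod_cast h2
  have h5 : (0 : ℝ) ≤ (2 * CS d : ℕ) * k := by positivity
  have h6 : (0 : ℝ) ≤ n := by positivity
  have h7 : (b : ℝ) * ((2 * CS d : ℕ) * k) / n ≤ 2 ^ t * ((2 * CS d : ℕ) * k) / n :=
    div_le_div_of_nonneg_right (mul_le_mul_of_nonneg_right h4 h5) h6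
  linarith

end Pool.Agent.NXL
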